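import Pool.Agent.Y129.Pkg

/-!
# Primitive idempotents and traces of involutions
-/

open Module LinearMap Finset

namespace Pool.Agent.W5h90.QL

section Prim

variable {K : Type*} [Field K] [IsAlgClosed K]

/-- A semisimple finite-dimensional algebra over an algebraically closed field has a decomposition
of the unit into primitive idempotents. -/
theorem exists_prim (B : Type*) [Ring B] [Algebra K B] [Module.Finite K B]
    (hB : ∀ x : B, (∀ y, IsNilpotent (y * x)) → x = 0) :
    ∃ (ι : Type) (_ : Fintype ι) (_ : DecidableEq ι) (x : ι → B),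
      (∀ i j, x i * x j = if i = j then x i else 0) ∧ ∑ i, x i = 1 ∧
      ∀ i b, ∃ c : K, x i * b * x i = c • x i := by
  classical
  obtain ⟨w⟩ := Y129.nonempty_wdata (K := K) B
  have hinj : Function.Injective w.π := by
    rw [injective_iff_map_eq_zero]
    intro x hx
    apply hB
    intro y
    apply w.nil
    rw [map_mul, hx, mul_zero]
  let e := AlgEquiv.ofBijective w.π ⟨hinj, w.surj⟩
  have he : ∀ b, e b = w.π b := fun b => rfl
  refine ⟨Σ k : Fin w.n, Fin (w.d k), inferInstance, inferInstance,
    fun p => e.symm (Pi.single p.1 (Matrix.single p.2 p.2 1)), ?_, ?_, ?_⟩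
  · rintro ⟨k, i⟩ ⟨l, j⟩
    rw [← map_mul]
    by_cases h : k = l
    · subst h
      rw [← Pi.single_mul]
      by_cases h' : i = j
      · subst h'
        rw [Matrix.single_mul_single_same, one_mul, if_pos rfl]
      · rw [Matrix.single_mul_single_of_ne (h := h'), Pi.single_zero, map_zero, if_neg]
        intro h2
        exact h' (eq_of_heq (Sigma.mk.inj_iff.1 h2).2)
    · have h1 : (Pi.single k (Matrix.single i i (1 : K)) : ∀ i, Matrix (Fin (w.d i)) (Fin (w.d i)) K) *
          Pi.single l (Matrix.single j j 1) = 0 := by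
        funext m
        rw [Pi.mul_apply, Pi.zero_apply]
        by_cases hm : m = k
        · subst hm
          rw [Pi.single_eq_of_ne (M := fun i => Matrix (Fin (w.d i)) (Fin (w.d i)) K) h, mul_zero]
        · rw [Pi.single_eq_of_ne (M := fun i => Matrix (Fin (w.d i)) (Fin (w.d i)) K) hm, zero_mul]
      rw [h1, map_zero, if_neg]
      intro h2
      exact h (Sigma.mk.inj_iff.1 h2).1
  · rw [← map_sum]
    rw [← map_one e.symm]
    congr 1
    rw [Fintype.sum_sigma]
    funext m
    rw [Finset.sum_apply, Pi.one_apply, Finset.sum_eq_single m]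
    · rw [Finset.sum_apply]
      simp only [Pi.single_eq_same]
      ext i j
      rw [Matrix.sum_apply]
      simp only [Matrix.single_apply]
      by_cases h : i = j
      · subst h
        rw [Finset.sum_eq_single i]
        · simp
        · intro b _ hb
          simp [hb]
        · intro h; exact absurd (Finset.mem_univ i) h
      · rw [Matrix.one_apply_ne h]
        apply Finset.sum_eq_zero
        intro b _
        rw [if_neg]
        rintro ⟨rfl, rfl⟩
        exact h rfl
    · intro b _ hb
      rw [Finset.sum_apply]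
      apply Finset.sum_eq_zero
      intro i _
      exact Pi.single_eq_of_ne (M := fun i => Matrix (Fin (w.d i)) (Fin (w.d i)) K) (Ne.symm hb) _
    · intro h; exact absurd (Finset.mem_univ m) h
  · rintro ⟨k, i⟩ b
    refine ⟨e b k i i, ?_⟩
    apply e.injective
    rw [map_mul, map_mul, AlgEquiv.apply_symm_apply, map_smul, AlgEquiv.apply_symm_apply]
    funext m
    rw [Pi.mul_apply, Pi.mul_apply, Pi.smul_apply]
    by_cases hm : m = k
    · subst hm
      rw [Pi.single_eq_same]
      ext a c
      rw [Matrix.smul_apply]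
      by_cases ha : a = i
      · subst ha
        by_cases hc : c = a
        · subst hc
          simp
        · simp [hc, Ne.symm hc]
      · simp [Ne.symm ha]
    · rw [Pi.single_eq_of_ne (M := fun i => Matrix (Fin (w.d i)) (Fin (w.d i)) K) hm, mul_zero,
        smul_zero]

end Prim

section Form

variable {K : Type*} [Field K] [IsAlgClosed K] {V : Type*} [AddCommGroup V] [Module K V]
  [Module.Finite K V]

/-- Primitive idempotents of an algebra of operators on which a twisted trace form is
nondegenerate. -/
theorem exists_prim_of_form (S : Subalgebra K (Module.End K V)) (e : Module.End K V)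
    (he : ∀ s ∈ S, Commute e s)
    (hnd : ∀ s ∈ S, (∀ t ∈ S, LinearMap.trace K V (e * (s * t)) = 0) → s = 0) :
    ∃ (ι : Type) (_ : Fintype ι) (_ : DecidableEq ι) (x : ι → Module.End K V),
      (∀ i, x i ∈ S) ∧ (∀ i j, x i * x j = if i = j then x i else 0) ∧ ∑ i, x i = 1 ∧
      ∀ i, ∀ b ∈ S, ∃ c : K, x i * b * x i = c • x i := by
  obtain ⟨ι, h1, h2, x, h3, h4, h5⟩ := exists_prim (K := K) S (by
    rintro ⟨x, hx⟩ h
    apply Subtype.ext
    apply hnd x hx
    intro t ht
    have h1 : IsNilpotent (t * x) := by
      obtain ⟨n, hn⟩ := h ⟨t, ht⟩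
      exact ⟨n, by simpa using congrArg Subtype.val hn⟩
    have h2 : LinearMap.trace K V (e * (x * t)) = LinearMap.trace K V (e * (t * x)) := by
      rw [← mul_assoc, LinearMap.trace_mul_comm, ← mul_assoc, ← (he t ht).eq, mul_assoc]
    rw [h2]
    exact Y129.trace_nil ((he _ (S.mul_mem ht hx)).isNilpotent_mul_left h1))
  refine ⟨ι, h1, h2, fun i => x i, fun i => (x i).2, ?_, ?_, ?_⟩
  · intro i j
    have := congrArg Subtype.val (h3 i j)
    rw [MulMemClass.coe_mul] at this
    rw [this]
    split_ifs <;> rfl
  · have := congrArg Subtype.val h4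
    simpa using this
  · intro i b hb
    obtain ⟨c, hc⟩ := h5 i ⟨b, hb⟩
    exact ⟨c, by simpa using congrArg Subtype.val hc⟩

end Form

section Inv

variable {K : Type*} [Field K] [CharZero K] {V : Type*} [AddCommGroup V] [Module K V]
  [Module.Finite K V]

/-- Traces of an idempotent and an involution on its image. -/
lemma exists_sgn {E Z : Module.End K V} (hE : E * E = E) (hZ : Z * Z = E) (hEZ : E * Z = Z)
    (hZE : Z * E = Z) : ∃ p q : ℕ, LinearMap.trace K V E = p + q ∧
      LinearMap.trace K V Z = p - q ∧ finrank K (range E) = p + q ∧ (p = 0 → Z = -E) ∧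
      (q = 0 → Z = E) ∧ (p + q = 0 → E = 0) := by
  set P : Module.End K V := (2⁻¹ : K) • (E + Z) with hP
  set Q : Module.End K V := (2⁻¹ : K) • (E - Z) with hQ
  have h2 : (2 : K) ≠ 0 := two_ne_zero
  have hP2 : IsIdempotentElem P := by
    rw [IsIdempotentElem, hP, smul_mul_smul_comm, mul_add, add_mul, add_mul, hE, hZ, hEZ, hZE]
    have : E + Z + (Z + E) = (2 : K) • (E + Z) := by rw [two_smul]; abel
    rw [this, smul_smul]
    congr 1
    field_simp
  have hQ2 : IsIdempotentElem Q := by
    rw [IsIdempotentElem, hQ, smul_mul_smul_comm, mul_sub, sub_mul, sub_mul, hE, hZ, hEZ, hZE]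
    have : E - Z - (Z - E) = (2 : K) • (E - Z) := by rw [two_smul]; abel
    rw [this, smul_smul]
    congr 1
    field_simp
  have hsum : E = P + Q := by
    rw [hP, hQ, ← smul_add]
    have : E + Z + (E - Z) = (2 : K) • E := by rw [two_smul]; abel
    rw [this, smul_smul, inv_mul_cancel₀ h2, one_smul]
  have hdiff : Z = P - Q := by
    rw [hP, hQ, ← smul_sub]
    have : E + Z - (E - Z) = (2 : K) • Z := by rw [two_smul]; abel
    rw [this, smul_smul, inv_mul_cancel₀ h2, one_smul]
  have tE : LinearMap.trace K V E = finrank K (range P) + finrank K (range Q) := by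
    rw [hsum, map_add, Y129.trace_idem hP2, Y129.trace_idem hQ2]
  refine ⟨finrank K (range P), finrank K (range Q), tE, ?_, ?_, ?_, ?_, ?_⟩
  · rw [hdiff, map_sub, Y129.trace_idem hP2, Y129.trace_idem hQ2]
  · have h3 := Y129.trace_idem (f := E) hE
    rw [tE] at h3
    exact_mod_cast h3.symm
  · intro h
    have h3 : P = 0 := LinearMap.range_eq_bot.1 (Submodule.finrank_eq_zero.1 h)
    rw [hsum, hdiff, h3, zero_sub, zero_add]
  · intro h
    have h3 : Q = 0 := LinearMap.range_eq_bot.1 (Submodule.finrank_eq_zero.1 h)
    rw [hsum, hdiff, h3, sub_zero, add_zero]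
  · intro h
    have h3 : P = 0 := LinearMap.range_eq_bot.1 (Submodule.finrank_eq_zero.1 (by omega))
    have h4 : Q = 0 := LinearMap.range_eq_bot.1 (Submodule.finrank_eq_zero.1 (by omega))
    rw [hsum, h3, h4, add_zero]

end Inv

end Pool.Agent.W5h90.QL
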