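import Pool.Agent.W5h90.QL.A1
import Pool.Agent.Y129.Gen
import Pool.Agent.H914R2.GConv

/-!
# Operators on the cohomology of `X × X`
-/

open CategoryTheory AlgebraicGeometry Finset

universe u v

namespace Pool.Agent.W5h90.QL

open Pool.Agent.H914 Pool.Agent.H914.VarClass Pool.Agent.H914.VarClass.Obj
  Pool.Agent.H914.WeilCohomology Pool.Agent.H281R3.HT Pool.Agent.Y129

variable {k : Type u} [Field k] {𝒱 : VarClass k} {ops : CycleOps 𝒱}
  {W : WeilCohomology.{u, v} ops} {X Y Z : 𝒱.Obj}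

/-- There are no nonzero numerically trivial classes on `Z`. -/
def NoNum (W : WeilCohomology.{u, v} ops) (Z : 𝒱.Obj) : Prop :=
  ∀ c ∈ algSpan W Z, c ∈ transcendental W Z → c = 0

/-- Nondegeneracy of the supertrace form. -/
lemma nondeg_str (h : NoNum W (Y.prod Z)) {f : W.H Y →ₗ[W.K] W.H Z} (hf : f ∈ CC W Y Z)
    (h0 : ∀ g ∈ CC W Z Y, LinearMap.trace W.K (W.H Z) (pa W Z ∘ₗ f ∘ₗ g) = 0) : f = 0 := by
  obtain ⟨c, hc, rfl⟩ := exists_corr_eq hf
  have h1 : c = 0 := h c hc (mem_transcendental.2 fun d hd => by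
    rw [algSpan_even hd, tr_mul_eq]
    exact h0 _ (opL_mem hd))
  rw [h1, corr_zero]

lemma pa_prod : pa W (X.prod Y) = extOp W (pa W X) (pa W Y) := by
  apply LinearMap.ext
  intro c
  refine W.kunneth_induction (p := fun c => pa W (X.prod Y) c =
    extOp W (pa W X) (pa W Y) c) ?_ ?_ c
  · intro a b ha hb
    rw [map_add, map_add, ha, hb]
  · intro i j a ha b hb
    rw [extOp_tmul, pa_apply ha, pa_apply hb,
      pa_apply (W.mul_mem (W.map_mem (fst X Y) ha) (W.map_mem (snd X Y) hb)), map_smul,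
      map_smul, smul_mul_assoc, mul_smul_comm, smul_smul, pow_add]

lemma pa_mul_pa : pa W X * pa W X = 1 := LinearMap.ext fun a => pa_pa a

lemma adj_pa : Adj W (pa W X) (pa W X) := fun a b => by
  rw [← tr_comm_pa' b a, tr_comm_pa]

lemma opL_pa (c : W.H (X.prod Y)) : opL W X Y (pa W _ c) = pa W X ∘ₗ opL W X Y c ∘ₗ pa W Y := by
  rw [pa_prod, opL_extOp adj_pa]

/-- Left multiplication of operators. -/
noncomputable abbrev lm (W : WeilCohomology.{u, v} ops) (X Y : 𝒱.Obj) (y : Module.End W.K (W.H X)) :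
    Module.End W.K (W.H (X.prod Y)) := extOp W y (1 : Module.End W.K (W.H Y))

lemma opL_lm (y : Module.End W.K (W.H X)) (c : W.H (X.prod Y)) :
    opL W X Y (lm W X Y y c) = y ∘ₗ opL W X Y c := by
  have h := opL_extOp (φ := y) (adj_id (W := W) (X := Y)) c
  rw [LinearMap.comp_id] at h
  exact h

lemma lm_mul (y y' : Module.End W.K (W.H X)) : lm W X Y y * lm W X Y y' = lm W X Y (y * y') := by
  rw [lm, lm, extOp_mul, mul_one]

lemma lm_smul (c : W.K) (y : Module.End W.K (W.H X)) : lm W X Y (c • y) = c • lm W X Y y :=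
  extOp_smul_left _ _ _

lemma lm_one : lm W X Y 1 = 1 := extOp_one

lemma lm_pa_comm : lm W X Y (pa W X) * pa W (X.prod Y) = pa W (X.prod Y) * lm W X Y (pa W X) := by
  rw [pa_prod, extOp_mul, extOp_mul, one_mul, mul_one]

lemma lm_mem {y : Module.End W.K (W.H X)} (hy : y ∈ CC W X X) :
    lm W X Y y ∈ CC W (X.prod Y) (X.prod Y) := CC.ext hy (isCat_CC.id_mem Y)

lemma opL_bijective : Function.Bijective (opL W X X) := by
  refine ⟨opL_injective, ?_⟩
  intro f
  obtain ⟨c, hc⟩ := (corrEquiv W X).surjective f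
  refine ⟨W.map (swap X X) c, ?_⟩
  rw [opL_apply, swap_swap]
  exact hc

/-- Even classes. -/
lemma even_induction {p : W.H X → Prop} (h : ∀ j, ∀ x ∈ W.gr X (2 * j), p x) (h0 : p 0)
    (hadd : ∀ a b, p a → p b → p (a + b)) {c : W.H X} (hc : pa W X c = c) : p c := by
  have h2 : (2 : W.K) ≠ 0 := two_ne_zero
  have key : ∀ x : W.H X, p ((2⁻¹ : W.K) • (x + pa W X x)) := by
    intro x
    refine gr_induction (W.isInternal X) (p := fun x => p ((2⁻¹ : W.K) • (x + pa W X x))) ?_ ?_ x
    · intro i x hx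
      rcases Nat.even_or_odd' i with ⟨j, hj | hj⟩
      · subst hj
        have e : (2⁻¹ : W.K) • (x + pa W X x) = x := by
          rw [pa_apply hx, pow_mul, neg_one_sq, one_pow, one_smul, ← two_smul W.K, smul_smul,
            inv_mul_cancel₀ h2, one_smul]
        rw [e]
        exact h j x hx
      · subst hj
        have e : (2⁻¹ : W.K) • (x + pa W X x) = 0 := by
          rw [pa_apply hx, pow_succ, pow_mul, neg_one_sq, one_pow, one_mul, neg_one_smul,
            add_neg_cancel, smul_zero]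
        rw [e]
        exact h0
    · intro a b ha hb
      have e : (2⁻¹ : W.K) • (a + b + pa W X (a + b)) =
          (2⁻¹ : W.K) • (a + pa W X a) + (2⁻¹ : W.K) • (b + pa W X b) := by
        rw [map_add, ← smul_add]
        congr 1
        abel
      rw [e]
      exact hadd _ _ ha hb
  have e : c = (2⁻¹ : W.K) • (c + pa W X c) := by
    rw [hc, ← two_smul W.K, smul_smul, inv_mul_cancel₀ h2, one_smul]
  rw [e]
  exact key c

/-- The trace kills the products of an algebraic class and an odd class. -/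
lemma tr_alg_pa {w : W.H X} (hw : w ∈ algSpan W X) (x : W.H X) :
    W.tr X (w * pa W X x) = W.tr X (w * x) := by
  rw [← tr_comm_pa, algSpan_even hw]

lemma pa_alg {w : W.H X} (hw : w ∈ algSpan W X) : pa W X w = w := by
  induction hw using Submodule.span_induction with
  | mem x hx =>
    obtain ⟨j, z, hz, rfl⟩ := Set.mem_iUnion.1 hx
    rw [pa_apply (W.cl_mem hz), pow_mul, neg_one_sq, one_pow, one_smul]
  | zero => rw [map_zero]
  | add x y _ _ hx hy => rw [map_add, hx, hy]
  | smul r x _ hx => rw [map_smul, hx]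

/-- The external product of correspondences. -/
lemma corr_ext_alg (c : W.H (Y.prod Y)) {d : W.H (Z.prod Z)} (hd : d ∈ algSpan W (Z.prod Z))
    (a : W.H Y) (b : W.H Z) :
    W.corr (W.map (q1 Y Z) c * W.map (q2 Y Z) d) (W.map (fst Y Z) a * W.map (snd Y Z) b) =
      W.map (fst Y Z) (W.corr c a) * W.map (snd Y Z) (W.corr d b) := by
  induction hd using Submodule.span_induction with
  | mem x hx =>
    obtain ⟨j, z, hz, rfl⟩ := Set.mem_iUnion.1 hx
    exact corr_ext c (W.cl_mem hz) a b
  | zero => rw [map_zero, mul_zero, corr_zero, corr_zero, LinearMap.zero_apply,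
      LinearMap.zero_apply, map_zero, mul_zero]
  | add x y _ _ hx hy =>
    rw [map_add, mul_add, corr_add, LinearMap.add_apply, hx, hy, corr_add, LinearMap.add_apply,
      map_add, mul_add]
  | smul r x _ hx =>
    rw [map_smul, mul_smul_comm, corr_smul, LinearMap.smul_apply, hx, corr_smul,
      LinearMap.smul_apply, map_smul, mul_smul_comm]

/-- The functional `c ↦ str (L_c s)` is the intersection with an algebraic class. -/
lemma exists_functional {s : Module.End W.K (W.H (X.prod X))}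
    (hs : s ∈ CC W (X.prod X) (X.prod X)) :
    ∃ z ∈ algSpan W (X.prod X), ∀ c : W.H (X.prod X),
      LinearMap.trace W.K (W.H (X.prod X))
        (pa W (X.prod X) ∘ₗ lm W X X (opL W X X c) ∘ₗ s) = W.tr (X.prod X) (z * c) := by
  rw [← map_opL] at hs
  obtain ⟨D, hD, rfl⟩ := hs
  obtain ⟨δ, hδ, hδ1⟩ := exists_corr_eq (isCat_CC.id_mem X : LinearMap.id ∈ CC W X X)
  have hE : W.map (q2 X X) δ * D ∈ algSpan W ((X.prod X).prod (X.prod X)) :=
    algSpan_mul (map_algSpan _ hδ) hD
  refine ⟨W.push (q1 X X ≫ swap X X) (W.map (q2 X X) δ * D), push_algSpan _ hE, fun c => ?_⟩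
  have h1 : W.corr (W.map (q1 X X) (W.map (swap X X) c) * W.map (q2 X X) δ) =
      lm W X X (opL W X X c) := by
    apply ext_kunneth_lin
    intro a b
    rw [corr_ext_alg _ hδ, hδ1, extOp_tmul]
    rfl
  rw [← h1, ← tr_mul_eq, W.tr_push, W.map_comp, mul_assoc]
  exact congrArg _ (algSpan_even hE _).symm

/-- Composition of correspondences. -/
lemma corr_comp_even (c : W.H (X.prod Y)) {d : W.H (Y.prod Z)} (hd : pa W (Y.prod Z) d = d) :
    W.corr (W.push (p13 X Y Z) (W.map (p12 X Y Z) c * W.map (p23 X Y Z) d)) =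
      W.corr d ∘ₗ W.corr c := by
  refine even_induction (p := fun d => W.corr (W.push (p13 X Y Z) (W.map (p12 X Y Z) c *
    W.map (p23 X Y Z) d)) = W.corr d ∘ₗ W.corr c) ?_ ?_ ?_ hd
  · intro j x hx
    exact W.corr_comp c hx
  · rw [map_zero, mul_zero, map_zero, corr_zero, corr_zero, LinearMap.zero_comp]
  · intro a b ha hb
    rw [map_add, mul_add, map_add, corr_add, ha, hb, corr_add, LinearMap.add_comp]

lemma pa_map (f : X ⟶ Y) (c : W.H Y) : W.map f (pa W Y c) = pa W X (W.map f c) :=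
  (CC.pa_comm (map_CC f) c).symm

/-- Composition of operators as an algebraic correspondence. -/
lemma exists_comp (W : WeilCohomology.{u, v} ops) (X : 𝒱.Obj) :
    ∃ F ∈ CC W ((X.prod X).prod (X.prod X)) (X.prod X), ∀ c d : W.H (X.prod X),
      pa W (X.prod X) d = d →
      opL W X X (F (W.map (fst (X.prod X) (X.prod X)) c * W.map (snd (X.prod X) (X.prod X)) d)) =
        opL W X X d ∘ₗ opL W X X c := by
  set ι : X.prod (X.prod X) ⟶ (X.prod X).prod (X.prod X) :=
    Obj.lift (p12 X X X ≫ swap X X) (p23 X X X ≫ swap X X) with hι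
  have e1 : ι ≫ fst (X.prod X) (X.prod X) = p12 X X X ≫ swap X X := Obj.lift_fst _ _
  have e2 : ι ≫ snd (X.prod X) (X.prod X) = p23 X X X ≫ swap X X := Obj.lift_snd _ _
  have h1 : pushMul W (p13 X X X) 1 ∈ CC W (X.prod (X.prod X)) (X.prod X) :=
    pushMul_CC _ (one_algSpan _)
  refine ⟨(W.map (swap X X)).toLinearMap ∘ₗ pushMul W (p13 X X X) 1 ∘ₗ (W.map ι).toLinearMap,
    isCat_CC.comp_mem (map_CC _) (isCat_CC.comp_mem h1 (map_CC _)), fun c d hd => ?_⟩
  rw [LinearMap.comp_apply, LinearMap.comp_apply, pushMul_apply, one_mul,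
    AlgHom.toLinearMap_apply, AlgHom.toLinearMap_apply, map_mul (W.map ι), ← W.map_comp,
    ← W.map_comp, e1, e2, W.map_comp, W.map_comp, opL_apply, swap_swap,
    corr_comp_even _ (by rw [← pa_map, hd])]
  rfl

end Pool.Agent.W5h90.QL
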