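import Pool.Agent.W5h90.QL.A2

/-!
# The even part of the cohomology of `X × X`
-/

open CategoryTheory AlgebraicGeometry Finset

universe u v

namespace Pool.Agent.W5h90.QL

open Pool.Agent.H914 Pool.Agent.H914.VarClass Pool.Agent.H914.VarClass.Obj
  Pool.Agent.H914.WeilCohomology Pool.Agent.H281R3.HT Pool.Agent.Y129

variable {k : Type u} [Field k] {𝒱 : VarClass k} {ops : CycleOps 𝒱}
  {W : WeilCohomology.{u, v} ops} {X Y Z : 𝒱.Obj}

/-- The algebra of the algebraic operators. -/
def alg (W : WeilCohomology.{u, v} ops) (Y : 𝒱.Obj) :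
    Subalgebra W.K (Module.End W.K (W.H Y)) where
  carrier := CC W Y Y
  mul_mem' hf hg := isCat_CC.comp_mem hf hg
  one_mem' := isCat_CC.id_mem Y
  add_mem' hf hg := Submodule.add_mem _ hf hg
  zero_mem' := Submodule.zero_mem _
  algebraMap_mem' r := by
    rw [Algebra.algebraMap_eq_smul_one]
    exact Submodule.smul_mem _ _ (isCat_CC.id_mem Y)

lemma mul_mem_CC {f g : Module.End W.K (W.H Y)} (hf : f ∈ CC W Y Y) (hg : g ∈ CC W Y Y) :
    f * g ∈ CC W Y Y := isCat_CC.comp_mem hf hg

lemma comm_pa' {f : Module.End W.K (W.H Y)} (hf : f ∈ CC W Y Y) :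
    pa W Y * f = f * pa W Y := LinearMap.ext fun a => CC.pa_comm hf a

lemma nondeg_alg (h : NoNum W (Y.prod Y)) {f : Module.End W.K (W.H Y)} (hf : f ∈ CC W Y Y)
    (h0 : ∀ g ∈ CC W Y Y, LinearMap.trace W.K (W.H Y) (pa W Y * (f * g)) = 0) : f = 0 :=
  nondeg_str h hf h0

/-- The trace is cyclic for algebraic operators. -/
lemma str_comm {f g : Module.End W.K (W.H Y)} (hg : g ∈ CC W Y Y) :
    LinearMap.trace W.K (W.H Y) (pa W Y * (f * g)) =
      LinearMap.trace W.K (W.H Y) (pa W Y * (g * f)) := by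
  rw [← mul_assoc, LinearMap.trace_mul_comm, ← mul_assoc, ← comm_pa' hg, mul_assoc]

/-- Primitive idempotents. -/
lemma exists_prim_CC [IsAlgClosed W.K] (h : NoNum W (Y.prod Y)) :
    ∃ (ι : Type) (_ : Fintype ι) (_ : DecidableEq ι) (x : ι → Module.End W.K (W.H Y)),
      (∀ i, x i ∈ CC W Y Y) ∧ (∀ i j, x i * x j = if i = j then x i else 0) ∧ ∑ i, x i = 1 ∧
      ∀ i, ∀ b ∈ CC W Y Y, ∃ c : W.K, x i * b * x i = c • x i :=
  exists_prim_of_form (alg W Y) (pa W Y) (fun _ hs => comm_pa' hs)
    (fun _ hs h0 => nondeg_alg h hs h0)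

/-- The projector onto the purely even part. -/
structure IsEv (W : WeilCohomology.{u, v} ops) (Y : 𝒱.Obj) (P : Module.End W.K (W.H Y)) : Prop where
  mem : P ∈ CC W Y Y
  mul_pa : P * pa W Y = P
  max : ∀ T ∈ CC W Y Y, T * pa W Y = T → P * T = T

lemma exists_ev [IsAlgClosed W.K] (h : NoNum W (Y.prod Y)) : ∃ P, IsEv W Y P := by
  classical
  obtain ⟨ι, _, _, x, hx, hxx, hx1, hprim⟩ := exists_prim_CC h
  have hid : ∀ i, x i * x i = x i := fun i => by rw [hxx, if_pos rfl]
  refine ⟨∑ i ∈ univ.filter (fun i => x i * pa W Y = x i), x i,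
    Submodule.sum_mem _ fun i _ => hx i, ?_, ?_⟩
  · rw [Finset.sum_mul]
    exact Finset.sum_congr rfl fun i hi => (Finset.mem_filter.1 hi).2
  · intro T hT hT'
    have key : ∀ i, ¬ x i * pa W Y = x i → x i * T = 0 := by
      intro i hi
      by_contra hne
      have h1 : ∃ w ∈ CC W Y Y, LinearMap.trace W.K (W.H Y) (pa W Y * (x i * T * w)) ≠ 0 := by
        by_contra hcon
        push Not at hcon
        exact hne (nondeg_alg h (mul_mem_CC (hx i) hT) hcon)
      obtain ⟨w, hw, hw0⟩ := h1
      obtain ⟨c, hc⟩ := hprim i (T * w) (mul_mem_CC hT hw)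
      have h2 : LinearMap.trace W.K (W.H Y) (pa W Y * (x i * T * w)) =
          LinearMap.trace W.K (W.H Y) (pa W Y * (c • x i)) := by
        rw [← hc, mul_assoc (x i) T w, mul_assoc (x i) (T * w) (x i),
          str_comm (mul_mem_CC (mul_mem_CC hT hw) (hx i)), mul_assoc (T * w), hid,
          str_comm (hx i)]
      have hc0 : c ≠ 0 := by
        intro h0
        rw [h0, zero_smul, mul_zero, map_zero] at h2
        exact hw0 h2
      apply hi
      have h3 : (c • x i) * pa W Y = c • x i := by
        rw [← hc, mul_assoc, ← comm_pa' (hx i), mul_assoc, ← mul_assoc (T * w), mul_assoc T w,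
          ← comm_pa' hw, ← mul_assoc T, hT', ← mul_assoc]
      rw [smul_mul_assoc] at h3
      exact smul_right_injective _ hc0 h3
    have h4 : (∑ i, x i) * T = T := by rw [hx1, one_mul]
    rw [Finset.sum_mul, Finset.sum_filter]
    rw [Finset.sum_mul] at h4
    conv_rhs => rw [← h4]
    apply Finset.sum_congr rfl
    intro i _
    split_ifs with hi
    · rfl
    · exact (key i hi).symm

variable {P : Module.End W.K (W.H Y)}

lemma IsEv.idem (hP : IsEv W Y P) : P * P = P := hP.max P hP.mem hP.mul_pa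

lemma IsEv.pa_mul (hP : IsEv W Y P) : pa W Y * P = P := by rw [comm_pa' hP.mem, hP.mul_pa]

lemma IsEv.even (hP : IsEv W Y P) {c : W.H Y} (hc : P c = c) : pa W Y c = c := by
  have h1 : (pa W Y * P) c = P c := by rw [hP.pa_mul]
  rw [Module.End.mul_apply, hc] at h1
  exact h1

/-- Operators of rank one. -/
lemma exists_rank_one {a w : W.H Y} (ha : a ∈ algSpan W Y) (hw : w ∈ algSpan W Y) :
    ∃ T ∈ CC W Y Y, ∀ y, T y = W.tr Y (w * y) • a :=
  ⟨opL W Y Y (W.map (fst Y Y) a * W.map (snd Y Y) w),
    opL_mem (algSpan_mul (map_algSpan _ ha) (map_algSpan _ hw)), fun y => opL_tmul_apply a w y⟩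

lemma exists_tr_ne (hY : NoNum W Y) {a : W.H Y} (ha : a ∈ algSpan W Y) (h0 : a ≠ 0) :
    ∃ w ∈ algSpan W Y, W.tr Y (w * a) ≠ 0 := by
  by_contra hcon
  push Not at hcon
  exact h0 (hY a ha (mem_transcendental.2 hcon))

/-- The algebraic classes are in the purely even part. -/
lemma IsEv.alg (hP : IsEv W Y P) (hY : NoNum W Y) {a : W.H Y} (ha : a ∈ algSpan W Y) :
    P a = a := by
  by_contra hne
  have ha' : a - P a ∈ algSpan W Y := Submodule.sub_mem _ ha (CC.algSpan hP.mem ha)
  have h0 : a - P a ≠ 0 := fun h => hne (sub_eq_zero.1 h).symm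
  obtain ⟨w, hw, hw0⟩ := exists_tr_ne hY ha' h0
  obtain ⟨T, hT, hT'⟩ := exists_rank_one ha' hw
  have h1 : T * pa W Y = T := by
    apply LinearMap.ext
    intro y
    rw [Module.End.mul_apply, hT', hT', tr_alg_pa hw]
  have h2 := congrArg (fun f => f (a - P a)) (hP.max T hT h1)
  simp only [Module.End.mul_apply, hT', map_smul] at h2
  have h3 := smul_right_injective _ hw0 h2
  have h4 : P (P a) = P a := congrArg (fun f => f a) hP.idem
  rw [map_sub, h4, sub_self] at h3
  exact h0 h3.symm

/-- A class which generates only subobjects of rank at most two is in the purely even part. -/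
lemma IsEv.small [IsAlgClosed W.K] (hP : IsEv W Y P) (hY : NoNum W Y) (hYY : NoNum W (Y.prod Y))
    {σ : W.H Y} (hσ : pa W Y σ = σ)
    (H : ∀ x ∈ CC W Y Y, x * x = x → (∀ b ∈ CC W Y Y, ∃ c : W.K, x * b * x = c • x) →
      x σ ∉ algSpan W Y → Module.finrank W.K (LinearMap.range x) ≤ 2) : P σ = σ := by
  classical
  obtain ⟨ι, _, _, x, hx, hxx, hx1, hprim⟩ := exists_prim_CC hYY
  have hid : ∀ i, x i * x i = x i := fun i => by rw [hxx, if_pos rfl]
  have key : ∀ i, P (x i σ) = x i σ := by
    intro i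
    by_cases hi : x i * pa W Y = x i
    · exact congrArg (fun f => f σ) (hP.max _ (hx i) hi)
    suffices h0 : x i σ = 0 by rw [h0, map_zero]
    by_contra hne
    -- the class is not algebraic
    have hA : x i σ ∉ algSpan W Y := by
      intro hA
      obtain ⟨w, hw, hw0⟩ := exists_tr_ne hY hA hne
      obtain ⟨T, hT, hT'⟩ := exists_rank_one hA hw
      obtain ⟨c, hc⟩ := hprim i T hT
      have hxσ : x i (x i σ) = x i σ := congrArg (fun f => f σ) (hid i)
      have h1 : ∀ y, (x i * T * x i) y = W.tr Y (w * x i y) • x i σ := by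
        intro y
        rw [Module.End.mul_apply, Module.End.mul_apply, hT', map_smul, hxσ]
      have hc0 : c ≠ 0 := by
        intro h0
        have h2 := h1 σ
        rw [hc, h0, zero_smul, LinearMap.zero_apply] at h2
        exact (smul_ne_zero hw0 hne) h2.symm
      apply hi
      have h3 : (c • x i) * pa W Y = c • x i := by
        rw [← hc]
        apply LinearMap.ext
        intro y
        rw [Module.End.mul_apply, h1, h1]
        have h4 : x i (pa W Y y) = pa W Y (x i y) := (CC.pa_comm (hx i) y).symm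
        rw [h4, tr_alg_pa hw]
      rw [smul_mul_assoc] at h3
      exact smul_right_injective _ hc0 h3
    have hrk := H (x i) (hx i) (hid i) (hprim i) hA
    -- the two parts
    have c1 := comm_pa' (hx i)
    obtain ⟨p, q, _, hpq, hfr, hp0, hq0, _⟩ := exists_sgn (K := W.K) (E := x i)
      (Z := pa W Y * x i) (hid i)
      (by rw [mul_assoc, ← mul_assoc (x i), ← c1, mul_assoc, hid, ← mul_assoc, pa_mul_pa, one_mul])
      (by rw [← mul_assoc, ← c1, mul_assoc, hid])
      (by rw [mul_assoc, hid])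
    have hq : q ≠ 0 := by
      intro h0
      exact hi (by rw [← c1]; exact hq0 h0)
    have hp : p ≠ 0 := by
      intro h0
      have h1 := congrArg (fun f => f σ) (hp0 h0)
      simp only [Module.End.mul_apply, LinearMap.neg_apply] at h1
      have h2 : pa W Y (x i σ) = x i σ := by rw [CC.pa_comm (hx i), hσ]
      rw [h2] at h1
      have h3 : (2 : W.K) • x i σ = 0 := by
        rw [two_smul]
        nth_rewrite 1 [h1]
        exact neg_add_cancel _
      rcases smul_eq_zero.1 h3 with h4 | h4
      · exact two_ne_zero h4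
      · exact hne h4
    have hpq' : p = 1 ∧ q = 1 := by omega
    have htr : LinearMap.trace W.K (W.H Y) (pa W Y * x i) = 0 := by
      rw [hpq, hpq'.1, hpq'.2, sub_self]
    have hzero : x i = 0 := by
      apply nondeg_alg hYY (hx i)
      intro g hg
      obtain ⟨c, hc⟩ := hprim i g hg
      have h1 : LinearMap.trace W.K (W.H Y) (pa W Y * (x i * g)) =
          LinearMap.trace W.K (W.H Y) (pa W Y * (x i * g * x i)) := by
        rw [mul_assoc (x i) g (x i), str_comm (mul_mem_CC hg (hx i)), mul_assoc g, hid,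
          str_comm (hx i)]
      rw [h1, hc, mul_smul_comm, map_smul, htr, smul_zero]
    rw [hzero, LinearMap.zero_apply] at hne
    exact hne rfl
  have h1 : σ = ∑ i, x i σ := by
    have := congrArg (fun f => f σ) hx1
    simp only [LinearMap.sum_apply, Module.End.one_apply] at this
    exact this.symm
  rw [h1, map_sum]
  exact Finset.sum_congr rfl fun i _ => key i

end Pool.Agent.W5h90.QL
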