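import Pool.Agent.W5h90.QL.A3

/-!
# If the sign class generates only small subobjects, it is algebraic
-/

open CategoryTheory AlgebraicGeometry Finset

universe u v

namespace Pool.Agent.W5h90.QL

open Pool.Agent.H914 Pool.Agent.H914.VarClass Pool.Agent.H914.VarClass.Obj
  Pool.Agent.H914.WeilCohomology Pool.Agent.H281R3.HT Pool.Agent.Y129

variable {k : Type u} [Field k] {𝒱 : VarClass k} {ops : CycleOps 𝒱}
  {W : WeilCohomology.{u, v} ops} {X Y Z : 𝒱.Obj}

/-- The purely even part of the algebra of the operators on `H(X)` is a subalgebra. -/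
lemma IsEv.comp {P : Module.End W.K (W.H (X.prod X))} (hP : IsEv W (X.prod X) P)
    (h6 : NoNum W (((X.prod X).prod (X.prod X)).prod (X.prod X))) {c d m : W.H (X.prod X)}
    (hc : P c = c) (hd : P d = d) (hm : opL W X X m = opL W X X d ∘ₗ opL W X X c) : P m = m := by
  obtain ⟨F, hF, hF'⟩ := exists_comp W X
  have hext : extOp W P P ∈ CC W ((X.prod X).prod (X.prod X)) ((X.prod X).prod (X.prod X)) :=
    CC.ext hP.mem hP.mem
  have h1P : (1 - P) ∈ CC W (X.prod X) (X.prod X) :=
    Submodule.sub_mem _ (isCat_CC.id_mem _) hP.mem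
  have hf : (1 - P) ∘ₗ (F ∘ₗ extOp W P P) ∈ CC W ((X.prod X).prod (X.prod X)) (X.prod X) :=
    isCat_CC.comp_mem h1P (isCat_CC.comp_mem hF hext)
  have hPP : P * (1 - P) = 0 := by rw [mul_sub, mul_one, hP.idem, sub_self]
  have hzero : (1 - P) ∘ₗ (F ∘ₗ extOp W P P) = 0 := by
    apply nondeg_str h6 hf
    intro g hg
    set T : Module.End W.K (W.H (X.prod X)) := ((1 - P) ∘ₗ (F ∘ₗ extOp W P P)) ∘ₗ g with hT
    have hTC : T ∈ CC W (X.prod X) (X.prod X) := isCat_CC.comp_mem hf hg
    have h1 : T * pa W (X.prod X) = T := by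
      apply LinearMap.ext
      intro y
      rw [Module.End.mul_apply, hT]
      simp only [LinearMap.comp_apply]
      have h2 : g (pa W (X.prod X) y) = pa W _ (g y) := (CC.pa_comm hg y).symm
      have h3 : extOp W P P (pa W _ (g y)) = extOp W P P (g y) := by
        rw [pa_prod, ← Module.End.mul_apply, extOp_mul, hP.mul_pa]
      rw [h2, h3]
    have h2 : T = 0 := by
      rw [← hP.max T hTC h1]
      apply LinearMap.ext
      intro y
      exact congrArg (fun f => f (F (extOp W P P (g y)))) hPP
    change LinearMap.trace W.K _ (pa W _ ∘ₗ T) = 0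
    rw [h2, LinearMap.comp_zero, map_zero]
  have h1 := congrArg (fun f => f (W.map (fst (X.prod X) (X.prod X)) c *
    W.map (snd (X.prod X) (X.prod X)) d)) hzero
  simp only [LinearMap.comp_apply, LinearMap.zero_apply, extOp_tmul, hc, hd] at h1
  have h2 : F (W.map (fst (X.prod X) (X.prod X)) c * W.map (snd (X.prod X) (X.prod X)) d) = m := by
    apply opL_injective
    rw [hF' c d (hP.even hd), hm]
  rw [h2, LinearMap.sub_apply, Module.End.one_apply, sub_eq_zero] at h1
  exact h1.symm

/-- The orthogonal projection of a class to the algebraic classes. -/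
lemma exists_proj (hY : NoNum W Y) (σ : W.H Y) : ∃ α ∈ algSpan W Y, ∀ z ∈ algSpan W Y,
    W.tr Y (z * α) = W.tr Y (z * σ) := by
  set A := algSpan W Y with hA
  let B : A →ₗ[W.K] (A →ₗ[W.K] W.K) :=
    LinearMap.mk₂ W.K (fun α z => W.tr Y ((z : W.H Y) * (α : W.H Y)))
      (fun a b z => by rw [Submodule.coe_add, mul_add, map_add])
      (fun r a z => by rw [Submodule.coe_smul, mul_smul_comm, map_smul])
      (fun a z w => by rw [Submodule.coe_add, add_mul, map_add])
      (fun r a z => by rw [Submodule.coe_smul, smul_mul_assoc, map_smul])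
  have hinj : Function.Injective B := by
    rw [injective_iff_map_eq_zero]
    rintro ⟨a, ha⟩ h
    apply Subtype.ext
    apply hY a ha
    rw [mem_transcendental]
    intro z hz
    exact congrArg (fun f => f ⟨z, hz⟩) h
  have hsurj : Function.Surjective B :=
    (LinearMap.injective_iff_surjective_of_finrank_eq_finrank
      (Subspace.dual_finrank_eq (K := W.K) (V := A)).symm).1 hinj
  obtain ⟨⟨α, hα⟩, h⟩ := hsurj ((W.tr Y ∘ₗ LinearMap.mulRight W.K σ) ∘ₗ A.subtype)
  exact ⟨α, hα, fun z hz => congrArg (fun f => f ⟨z, hz⟩) h⟩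

/-- **The core.** -/
theorem parAlg_of_even [IsAlgClosed W.K] (h2 : NoNum W (X.prod X))
    (h6 : NoNum W (((X.prod X).prod (X.prod X)).prod (X.prod X))) {σ : W.H (X.prod X)}
    (hσ : opL W X X σ = pa W X)
    {P : Module.End W.K (W.H (X.prod X))} (hP : IsEv W (X.prod X) P) (hPσ : P σ = σ) :
    ParAlg W X := by
  classical
  obtain ⟨α, hα, hασ⟩ := exists_proj h2 σ
  set a : Module.End W.K (W.H X) := opL W X X α with ha
  have haC : a ∈ CC W X X := opL_mem hα
  -- the traces on `H(X)`
  have tr1 : ∀ x ∈ CC W X X, LinearMap.trace W.K (W.H X) (pa W X * (x * a)) =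
      LinearMap.trace W.K (W.H X) x := by
    intro x hx
    obtain ⟨c, hc, rfl⟩ := exists_corr_eq hx
    have e1 := tr_mul_eq c α
    have e2 := tr_mul_eq c σ
    rw [hασ c hc, e2, hσ] at e1
    have e3 : pa W X ∘ₗ W.corr c ∘ₗ pa W X = W.corr c := by
      have := comm_pa' hx
      change pa W X * (W.corr c * pa W X) = W.corr c
      rw [← this, ← mul_assoc, pa_mul_pa, one_mul]
    rw [e3] at e1
    exact e1.symm
  -- `a` is central
  have hcen : ∀ y ∈ CC W X X, a * y = y * a := by
    intro y hy
    rw [← sub_eq_zero]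
    apply nondeg_alg h2 (Submodule.sub_mem _ (mul_mem_CC haC hy) (mul_mem_CC hy haC))
    intro w hw
    have e1 : LinearMap.trace W.K (W.H X) (pa W X * (a * y * w)) =
        LinearMap.trace W.K (W.H X) (y * w) := by
      rw [mul_assoc, str_comm (f := a) (mul_mem_CC hy hw), tr1 _ (mul_mem_CC hy hw)]
    have e2 : LinearMap.trace W.K (W.H X) (pa W X * (y * a * w)) =
        LinearMap.trace W.K (W.H X) (w * y) := by
      rw [str_comm hw, ← mul_assoc w y a, tr1 _ (mul_mem_CC hw hy)]
    rw [sub_mul, mul_sub, map_sub, e1, e2, LinearMap.trace_mul_comm, sub_self]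
  obtain ⟨ι, _, _, x, hx, hxx, hx1, hprim⟩ := exists_prim_CC h2
  have hid : ∀ i, x i * x i = x i := fun i => by rw [hxx, if_pos rfl]
  have hclosed : ∀ y : Module.End W.K (W.H X), (y ∈ CC W X X ∨ y = pa W X) →
      lm W X X y * P = P * (lm W X X y * P) := by
    intro y hy
    apply LinearMap.ext
    intro c
    rw [Module.End.mul_apply, Module.End.mul_apply, Module.End.mul_apply]
    obtain ⟨η, hη, hη'⟩ : ∃ η, opL W X X η = y ∧ P η = η := by
      rcases hy with hy | hy
      · have hy' := hy
        rw [← map_opL] at hy'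
        obtain ⟨η, h1, h2'⟩ := hy'
        exact ⟨η, h2', hP.alg h2 h1⟩
      · exact ⟨σ, by rw [hσ, hy], hPσ⟩
    refine (hP.comp h6 (c := P c) (d := η) (congrArg (fun f => f c) hP.idem) hη' ?_).symm
    rw [opL_lm, hη]
  have key : ∀ i, pa W X * x i ∈ CC W X X := by
    intro i
    by_cases h0 : x i = 0
    · rw [h0, mul_zero]
      exact Submodule.zero_mem _
    obtain ⟨lam, hlam⟩ := hprim i a haC
    have hax : x i * a = lam • x i := by
      rw [← hlam, mul_assoc, hcen _ (hx i), ← mul_assoc, hid]
    have c1 := comm_pa' (hx i)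
    -- on `H(X)`
    obtain ⟨p, q, t1, t2, _, hp0, hq0, hpq0⟩ := exists_sgn (K := W.K) (E := x i)
      (Z := pa W X * x i) (hid i)
      (by rw [mul_assoc, ← mul_assoc (x i), ← c1, mul_assoc, hid, ← mul_assoc, pa_mul_pa, one_mul])
      (by rw [← mul_assoc, ← c1, mul_assoc, hid])
      (by rw [mul_assoc, hid])
    have r1 : lam * ((p : W.K) - q) = p + q := by
      rw [← t2, ← t1, ← tr1 _ (hx i), hax, mul_smul_comm, map_smul, smul_eq_mul]
    -- on `H(X × X)`
    set L := lm W X X (x i) with hL
    set Q := lm W X X (pa W X) with hQ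
    have hLC : L ∈ CC W (X.prod X) (X.prod X) := lm_mem (hx i)
    have hLL : L * L = L := by rw [hL, lm_mul, hid]
    have hQQ : Q * Q = 1 := by rw [hQ, lm_mul, pa_mul_pa, lm_one]
    have hQL : Q * L = L * Q := by rw [hQ, hL, lm_mul, lm_mul, c1]
    have cP : P * (L * P) = L * P := (hclosed _ (Or.inl (hx i))).symm
    have cQ : P * (Q * P) = Q * P := (hclosed _ (Or.inr rfl)).symm
    set E := L * P with hE
    have hEE : E * E = E := by
      rw [hE, mul_assoc, cP, ← mul_assoc, hLL]
    have hPE : P * E = E := cP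
    have hPQE : P * (Q * E) = Q * E := by
      have h1 : Q * E = Q * P * E := by rw [mul_assoc, hPE]
      rw [h1, ← mul_assoc, cQ]
    obtain ⟨p', q', s1, s2, _, _, _, hpq'⟩ := exists_sgn (K := W.K) (E := E) (Z := Q * E) hEE
      (by
        calc Q * E * (Q * E) = Q * (L * (P * (Q * E))) := by rw [hE]; simp only [mul_assoc]
          _ = Q * (L * (Q * E)) := by rw [hPQE]
          _ = Q * Q * (L * L * P) := by
              rw [hE]
              simp only [← mul_assoc]
              rw [mul_assoc Q L Q, ← hQL, ← mul_assoc]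
          _ = E := by rw [hQQ, hLL, one_mul])
      (by
        calc E * (Q * E) = L * (P * (Q * E)) := by rw [hE, mul_assoc]
          _ = L * Q * E := by rw [hPQE, mul_assoc]
          _ = Q * (L * L * P) := by rw [← hQL, hE]; simp only [mul_assoc]
          _ = Q * E := by rw [hLL])
      (by rw [mul_assoc, hEE])
    have hE0 : E ≠ 0 := by
      intro h
      have hxi := hx i
      rw [← map_opL] at hxi
      obtain ⟨η, hη1, hη2⟩ := hxi
      have h1 := congrArg (fun f => opL W X X (f η)) h
      simp only [LinearMap.zero_apply, map_zero] at h1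
      rw [hE, Module.End.mul_apply, hP.alg h2 hη1, hL, opL_lm, hη2] at h1
      apply h0
      rw [← hid i]
      exact h1
    have r2 : (p' : W.K) - q' = lam * (p' + q') := by
      obtain ⟨z, hz, hz'⟩ := exists_functional (X := X) (s := E) (mul_mem_CC hLC hP.mem)
      have g1 := hz' σ
      have g2 := hz' α
      rw [← hασ z hz] at g1
      rw [← g2, hσ] at g1
      have e1 : pa W (X.prod X) ∘ₗ Q ∘ₗ E = Q * E := by
        change pa W (X.prod X) * (Q * E) = Q * E
        rw [← mul_assoc, hQ, ← lm_pa_comm, mul_assoc, ← hQ]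
        congr 1
        rw [hE, ← mul_assoc, comm_pa' hLC, mul_assoc, hP.pa_mul]
      have e2 : pa W (X.prod X) ∘ₗ lm W X X a ∘ₗ E = lam • E := by
        change pa W (X.prod X) * (lm W X X a * E) = lam • E
        have h3 : lm W X X a * E = lam • E := by
          rw [hE, ← mul_assoc, hL, lm_mul, hcen _ (hx i), hax, lm_smul, smul_mul_assoc]
        rw [h3, mul_smul_comm]
        congr 1
        rw [hE, ← mul_assoc, comm_pa' hLC, mul_assoc, hP.pa_mul]
      have g3 : LinearMap.trace W.K (W.H (X.prod X)) (Q * E) =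
          LinearMap.trace W.K (W.H (X.prod X)) (lam • E) := by
        rw [← e1, ← e2]
        exact g1
      rw [s2, map_smul, s1, smul_eq_mul] at g3
      exact g3
    -- the comparison
    have r3 : (p + q) * (p' + q') = ((p : ℤ) - q) * (p' - q') := by
      have : ((p : W.K) + q) * (p' + q') = (p - q) * (p' - q') := by
        rw [r2, ← r1]; ring
      exact_mod_cast this
    have r4 : (p : ℤ) * q' + q * p' = 0 := by
      have r3' : ((p : ℤ) + q) * (p' + q') = ((p : ℤ) - q) * (p' - q') := by exact_mod_cast r3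
      linarith
    have r5 : p * q' = 0 ∧ q * p' = 0 := by
      have : p * q' + q * p' = 0 := by exact_mod_cast r4
      omega
    have hor : p = 0 ∨ q = 0 := by
      by_contra hcon
      push Not at hcon
      have hq' : q' = 0 := (Nat.mul_eq_zero.1 r5.1).resolve_left hcon.1
      have hp' : p' = 0 := (Nat.mul_eq_zero.1 r5.2).resolve_left hcon.2
      exact hE0 (hpq' (by omega))
    rcases hor with h | h
    · rw [hp0 h]
      exact Submodule.neg_mem _ (hx i)
    · rw [hq0 h]
      exact hx i
  have h1 : pa W X = ∑ i, pa W X * x i := by rw [← Finset.mul_sum, hx1, mul_one]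
  rw [ParAlg, h1]
  exact Submodule.sum_mem _ fun i _ => key i

end Pool.Agent.W5h90.QL
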