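import Pool.Agent.Y129.Gen

/-!
# The gap between two stable systems is at least the rank of a primitive idempotent
-/

open Module LinearMap Finset Filter Topology

namespace Pool.Agent.W5h90.QL

open Pool.Agent.Y129

section Prim

variable {K : Type*} [Field K] [CharZero K] {Ob : Type*} {H : Ob → Type*}
  [∀ Y, AddCommGroup (H Y)] [∀ Y, Module K (H Y)] {C : ∀ Y Z, Submodule K (H Y →ₗ[K] H Z)}
  [∀ Y, Module.Finite K (H Y)]

/-- A primitive idempotent. -/
lemma nd_sand_prim (hC : IsCat C) {U : Ob} {x : Module.End K (H U)}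
    (hxx : IsIdempotentElem x) (h0 : x ≠ 0)
    (hprim : ∀ b ∈ C U U, ∃ c : K, x * b * x = c • x) : nd C U U (sand C U U x x) = 1 := by
  have h1 : sand C U U x x = Submodule.span K {x} := by
    apply le_antisymm
    · rintro _ ⟨c, hc, rfl⟩
      obtain ⟨r, hr⟩ := hprim c hc
      rw [Submodule.mem_span_singleton]
      exact ⟨r, hr.symm⟩
    · rw [Submodule.span_singleton_le_iff_mem]
      refine ⟨LinearMap.id, hC.id_mem U, ?_⟩
      change x * (1 * x) = x
      rw [one_mul, hxx]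
  have h2 : LinearMap.trace K (H U) x ≠ 0 := by
    rw [trace_idem hxx, Nat.cast_ne_zero]
    intro h
    apply h0
    rw [← LinearMap.range_eq_bot]
    exact Submodule.finrank_eq_zero.1 h
  rw [nd, h1, Submodule.map_span, Set.image_singleton]
  apply finrank_span_singleton
  intro h
  rw [Submodule.mkQ_apply, Submodule.Quotient.mk_eq_zero] at h
  apply h2
  have h3 := mem_perp.1 h LinearMap.id (hC.id_mem U)
  rwa [LinearMap.id_comp] at h3

end Prim

section Core

variable {K : Type*} [Field K] {H : ℕ → Type*} [∀ n, AddCommGroup (H n)]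
  [∀ n, Module K (H n)] {C : ∀ m n, Submodule K (H m →ₗ[K] H n)} [∀ n, Module.Finite K (H n)]
  [IsAlgClosed K] [CharZero K] {β : ℕ → ℕ} {b : ℕ}

/-- **The rank gap.** -/
theorem rank_gap (h : IsPowers C β b) {𝒢' 𝒢 : ∀ n, Submodule K (H n)}
    (h𝒢' : IsStable C 𝒢') (h𝒢 : IsStable C 𝒢) (hle : ∀ n, 𝒢' n ≤ 𝒢 n) {m : ℕ}
    {ε : Module.End K (H m)} (hε : ε ∈ C m m) (hε' : IsIdempotentElem ε)
    (hprim : ∀ b ∈ C m m, ∃ c : K, ε * b * ε = c • ε)
    (hlt : ∃ a ∈ 𝒢 m, ε a ∉ 𝒢' m) {N' N : ℝ}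
    (h1 : Tendsto (fun n => (finrank K (𝒢' n) : ℝ) / β n) atTop (𝓝 N'))
    (h2 : Tendsto (fun n => (finrank K (𝒢 n) : ℝ) / β n) atTop (𝓝 N)) :
    N' + finrank K (range ε) ≤ N := by
  obtain ⟨a, ha, ha'⟩ := hlt
  have h0 : ε ≠ 0 := by
    intro h
    apply ha'
    rw [h, LinearMap.zero_apply]
    exact Submodule.zero_mem _
  have hk : finrank K ((𝒢' m).map ε) < finrank K ((𝒢 m).map ε) := by
    apply lt_of_le_of_ne (Submodule.finrank_mono (Submodule.map_mono (hle m)))
    intro h2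
    have h3 := Submodule.eq_of_le_of_finrank_le (Submodule.map_mono (f := ε) (hle m)) h2.ge
    apply ha'
    have h4 : ε a ∈ (𝒢' m).map ε := by
      rw [h3]
      exact Submodule.mem_map_of_mem ha
    obtain ⟨c, hc, hc'⟩ := h4
    rw [← hc']
    exact h𝒢' m m ε hε c hc
  have h3 := h.tendsto_cmp_div
  rw [← tendsto_add_atTop_iff_nat 1] at h1 h2
  by_contra hcon
  push Not at hcon
  set R : ℝ := (finrank K (LinearMap.range ε) : ℝ) with hR
  set δ : ℝ := (N' + R - N) / 2 with hδ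
  have hδ0 : 0 < δ := by rw [hδ]; linarith
  have h4 := (h1.add (h3.const_mul (R - δ))).sub h2
  have h5 : 0 < N' + (R - δ) * 1 - N := by rw [hδ]; linarith
  have h6 := (h4.eventually (lt_mem_nhds h5)).and ((h.eventually m hε hε' hδ0).and
    (h3.eventually (lt_mem_nhds (a := 1 / 2) (by norm_num))))
  obtain ⟨n, hn1, hn2, hn3⟩ := h6.exists
  have hpos : (0 : ℝ) < β (n + 1) := by
    by_contra hcon'
    have : (β (n + 1) : ℝ) = 0 := le_antisymm (not_lt.1 hcon') (Nat.cast_nonneg _)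
    rw [this, div_zero] at hn3
    linarith
  have hn4 : (finrank K (𝒢' (n + 1)) : ℝ) +
      nd C m (n + 1) (sand C m (n + 1) LinearMap.id ε) ≤ finrank K (𝒢 (n + 1)) := by
    exact_mod_cast sub_le_finrank h.cat m (n + 1) hε hε'
      (nd_sand_prim h.cat hε' h0 hprim) h𝒢' h𝒢 hle hk
  have hn5 : (finrank K (𝒢' (n + 1)) : ℝ) + (R - δ) * cmp β b n ≤ finrank K (𝒢 (n + 1)) :=
    (add_le_add_right hn2 _).trans hn4
  have h7 : (finrank K (𝒢' (n + 1)) : ℝ) / β (n + 1) +
      (R - δ) * ((cmp β b n : ℝ) / β (n + 1)) ≤ (finrank K (𝒢 (n + 1)) : ℝ) / β (n + 1) := by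
    rw [← mul_div_assoc, ← add_div]
    exact div_le_div_of_nonneg_right hn5 hpos.le
  linarith

end Core

end Pool.Agent.W5h90.QL
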