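import Pool.Agent.W5h90.QL.A4
import Pool.Agent.W5h90.QL.A5

/-!
# The quarter law over an algebraically closed coefficient field
-/

open CategoryTheory AlgebraicGeometry Finset Filter Topology

universe u v

namespace Pool.Agent.W5h90.QL

open Pool.Agent.H914 Pool.Agent.H914.VarClass Pool.Agent.H914.VarClass.Obj
  Pool.Agent.H914.WeilCohomology Pool.Agent.H281R3.HT Pool.Agent.Y129

variable {k : Type u} [Field k] {𝒱 : VarClass k} {ops : CycleOps 𝒱}
  {W : WeilCohomology.{u, v} ops} {X Y Z : 𝒱.Obj}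

lemma noNum_of_iso {m : ℕ} (h : HomEqNum W (pw X m)) (e : Nonempty (Y ≅ pw X m)) : NoNum W Y := by
  obtain ⟨f⟩ := e
  intro c hc hc'
  have h1 := homEqNum_algSpan h (map_algSpan f.inv hc) (map_transcendental f.inv hc')
  have h2 : W.map f.hom (W.map f.inv c) = c := by
    rw [← W.map_comp, f.hom_inv_id, W.map_id]
  rw [← h2, h1, map_zero]

lemma pa_of_opL {σ : W.H (X.prod X)} (hσ : opL W X X σ = pa W X) : pa W (X.prod X) σ = σ := by
  apply opL_injective
  rw [opL_pa, hσ]
  apply LinearMap.ext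
  intro a
  simp only [LinearMap.comp_apply, pa_pa]

/-- If a stable system contains the sign class and its index is less than four, then the sign class
is algebraic. -/
theorem parAlg_closed [IsAlgClosed W.K] [Nontrivial (W.H X)] (hnum : ∀ n, HomEqNum W (pw X n))
    {G : ∀ n, Submodule W.K (W.H (pw X n))} (hG : StableSystem W X G)
    (hA : ∀ n, algSpan W (pw X n) ≤ G n) {σ : W.H (X.prod X)} (hσ : opL W X X σ = pa W X)
    (hσG : σ ∈ G 1) {N' N : ℝ} (hN' : 1 ≤ N')
    (h1 : Tendsto (fun n => (Module.finrank W.K (algSpan W (pw X n)) : ℝ) /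
      numRank W (pw X n)) atTop (𝓝 N'))
    (h2 : Tendsto (fun n => (Module.finrank W.K (G n) : ℝ) / numRank W (pw X n)) atTop (𝓝 N))
    (hN : N < 4) : ParAlg W X := by
  have i2 : Nonempty (X.prod X ≅ pw X 1) := ⟨Iso.refl _⟩
  obtain ⟨j4⟩ := prod_iso_pw (X := X) (Iso.refl (pw X 1)) (Iso.refl (pw X 1))
  have i4 : Nonempty ((X.prod X).prod (X.prod X) ≅ pw X (1 + 1 + 1)) := ⟨j4⟩
  obtain ⟨j6⟩ := prod_iso_pw (X := X) j4 (Iso.refl (pw X 1))
  have i6 : Nonempty (((X.prod X).prod (X.prod X)).prod (X.prod X) ≅ pw X (1 + 1 + 1 + 1 + 1)) :=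
    ⟨j6⟩
  have n2 : NoNum W (X.prod X) := noNum_of_iso (hnum _) i2
  have n4 : NoNum W ((X.prod X).prod (X.prod X)) := noNum_of_iso (hnum _) i4
  have n6 : NoNum W (((X.prod X).prod (X.prod X)).prod (X.prod X)) := noNum_of_iso (hnum _) i6
  obtain ⟨P, hP⟩ := exists_ev n4
  have hpw := isPowers (goodSet_D hnum) (X := X) ⟨0, ⟨Iso.refl X⟩⟩
  have hAst : StableSystem W X (fun n => algSpan W (pw X n)) := fun m n f hf a ha =>
    CC.algSpan hf ha
  apply parAlg_of_even n2 n6 hσ hP
  apply hP.small n2 n4 (pa_of_opL hσ)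
  intro x hx hxx hprim hxσ
  have h3 := rank_gap hpw (𝒢' := fun n => algSpan W (pw X n)) (𝒢 := G) hAst hG hA (m := 1)
    (ε := x) hx hxx hprim ⟨σ, hσG, hxσ⟩ h1 h2
  have h4 : (Module.finrank W.K (LinearMap.range x) : ℝ) < 3 := by
    have h5 : (Module.finrank W.K (LinearMap.range x) : ℝ) ≤ N - N' := by
      have h6 : N' + (Module.finrank W.K (LinearMap.range x) : ℝ) ≤ N := h3
      linarith
    linarith
  have h5 : Module.finrank W.K (LinearMap.range x) < 3 := by exact_mod_cast h4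
  omega

end Pool.Agent.W5h90.QL
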