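import Pool.Agent.W5h90.QL.A6
import Pool.Agent.Y129.Gal2
import Pool.Agent.TH133.PW.Ev

/-!
# From the parity operator to the sign conjecture, and descent of the coefficients
-/

open CategoryTheory AlgebraicGeometry Finset Filter Topology TensorProduct

universe u v

namespace Pool.Agent.W5h90.QL

open Pool.Agent.H914 Pool.Agent.H914.VarClass Pool.Agent.H914.VarClass.Obj
  Pool.Agent.H914.WeilCohomology Pool.Agent.H281R3.HT Pool.Agent.Y129

variable {k : Type u} [Field k] {𝒱 : VarClass k} {ops : CycleOps 𝒱}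
  {W : WeilCohomology.{u, v} ops} {X Y Z : 𝒱.Obj}

/-- The projector onto the part of degree `i`. -/
noncomputable def prj (W : WeilCohomology.{u, v} ops) (X : 𝒱.Obj) (i : ℕ) :
    Module.End W.K (W.H X) := scal (W.isInternal X) (fun j => if j = i then 1 else 0)

lemma prj_same {i : ℕ} {a : W.H X} (ha : a ∈ W.gr X i) : prj W X i a = a := by
  rw [prj, scal_apply _ _ ha, if_pos rfl, one_smul]

lemma prj_ne {i j : ℕ} (hij : j ≠ i) {a : W.H X} (ha : a ∈ W.gr X j) : prj W X i a = 0 := by
  rw [prj, scal_apply _ _ ha, if_neg hij, zero_smul]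

/-- The part of degree zero of an operator. -/
noncomputable def deg0 (W : WeilCohomology.{u, v} ops) (X : 𝒱.Obj) :
    Module.End W.K (W.H X) →ₗ[W.K] Module.End W.K (W.H X) :=
  ∑ i ∈ range (2 * X.dim + 1), (LinearMap.mulLeft W.K (prj W X i)) ∘ₗ
    (LinearMap.mulRight W.K (prj W X i))

lemma deg0_apply (f : Module.End W.K (W.H X)) {j : ℕ} (hj : j ≤ 2 * X.dim) {a : W.H X}
    (ha : a ∈ W.gr X j) : deg0 W X f a = prj W X j (f a) := by
  have h1 : deg0 W X f a = ∑ i ∈ range (2 * X.dim + 1), prj W X i (f (prj W X i a)) := by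
    rw [deg0]
    simp only [LinearMap.sum_apply, LinearMap.comp_apply, LinearMap.mulLeft_apply,
      LinearMap.mulRight_apply, Module.End.mul_apply]
  rw [h1, Finset.sum_eq_single j]
  · rw [prj_same ha]
  · intro i _ hij
    rw [prj_ne (Ne.symm hij) ha, map_zero, map_zero]
  · intro h
    exact absurd (mem_range.2 (by omega)) h

lemma deg0_kop {f : Module.End W.K (W.H X)} (hf : f ∈ KOp W X X 0) : deg0 W X f = f := by
  apply gr_ext (W.isInternal X)
  intro j a ha
  by_cases hj : j ≤ 2 * X.dim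
  · rw [deg0_apply f hj ha]
    apply prj_same
    have h1 := KOp.isHom hf j a (by rw [grZ_natCast]; exact ha)
    rwa [mul_zero, add_zero, grZ_natCast] at h1
  · rw [W.gr_eq_bot X j (by omega), Submodule.mem_bot] at ha
    rw [ha, map_zero, map_zero]

lemma deg0_kop_ne {d : ℤ} (hd : d ≠ 0) {f : Module.End W.K (W.H X)} (hf : f ∈ KOp W X X d) :
    deg0 W X f = 0 := by
  apply gr_ext (W.isInternal X)
  intro j a ha
  rw [LinearMap.zero_apply]
  by_cases hj : j ≤ 2 * X.dim
  · rw [deg0_apply f hj ha]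
    have h1 := KOp.isHom hf j a (by rw [grZ_natCast]; exact ha)
    by_cases hneg : 0 ≤ (j : ℤ) + 2 * d
    · obtain ⟨m, hm⟩ := Int.eq_ofNat_of_zero_le hneg
      rw [hm, grZ_natCast] at h1
      exact prj_ne (by omega) h1
    · rw [grZ_of_neg (by omega)] at h1
      rw [(Submodule.mem_bot _).1 h1, map_zero]
  · rw [W.gr_eq_bot X j (by omega), Submodule.mem_bot] at ha
    rw [ha, map_zero]

lemma deg0_CC {f : Module.End W.K (W.H X)} (hf : f ∈ CC W X X) : deg0 W X f ∈ KOp W X X 0 := by
  refine Submodule.iSup_induction (fun d : ℤ => KOp W X X d)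
    (motive := fun f => deg0 W X f ∈ KOp W X X 0) hf ?_ ?_ ?_
  · intro d f hf
    by_cases hd : d = 0
    · subst hd
      rw [deg0_kop hf]
      exact hf
    · rw [deg0_kop_ne hd hf]
      exact Submodule.zero_mem _
  · rw [map_zero]
    exact Submodule.zero_mem _
  · intro f g hf hg
    rw [map_add]
    exact Submodule.add_mem _ hf hg

lemma pa_mem_kop (h : ParAlg W X) : pa W X ∈ KOp W X X 0 := by
  have h1 : deg0 W X (pa W X) = pa W X := by
    apply gr_ext (W.isInternal X)
    intro j a ha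
    by_cases hj : j ≤ 2 * X.dim
    · rw [deg0_apply _ hj ha, pa_apply ha, map_smul, prj_same ha]
    · rw [W.gr_eq_bot X j (by omega), Submodule.mem_bot] at ha
      rw [ha, map_zero, map_zero]
  rw [← h1]
  exact deg0_CC h

open Pool.Agent.H447 Pool.Agent.TH133.PW Pool.Agent.W537 in
/-- If the parity operator is a linear combination of algebraic correspondences, the sign conjecture
holds. -/
theorem signStd_of_parAlg (h : ParAlg W X) : SignStd W X := by
  have h2 : (2 : W.K) ≠ 0 := two_ne_zero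
  apply signStd_of_span
  rw [EvenProjInSpan, span_cycleOperators0]
  refine ⟨(2⁻¹ : W.K) • (pa W X + 1), Submodule.smul_mem _ _
    (Submodule.add_mem _ (pa_mem_kop h) (KOp.id X)), ?_⟩
  intro j a ha
  rw [LinearMap.smul_apply, LinearMap.add_apply, Module.End.one_apply, pa_apply ha]
  by_cases hj : Even j
  · rw [if_pos hj, hj.neg_one_pow, one_smul, ← two_smul W.K a, smul_smul, inv_mul_cancel₀ h2,
      one_smul]
  · rw [if_neg hj, (Nat.not_even_iff_odd.1 hj).neg_one_pow, neg_one_smul, neg_add_cancel,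
      smul_zero]

/-- Descent of the membership in a subspace. -/
lemma mem_of_one_tmul {K : Type*} [Field K] {V : Type*} [AddCommGroup V] [Module K V]
    (L : Type*) [Field L] [Algebra K L] {S : Submodule K V} {v : V}
    (h : (1 : L) ⊗ₜ[K] v ∈ S.baseChange L) : v ∈ S := by
  by_contra hv
  have h1 : Submodule.Quotient.mk (p := S) v ≠ 0 := by
    rwa [Ne, Submodule.Quotient.mk_eq_zero]
  have h2 : (S.mkQ.baseChange L) ((1 : L) ⊗ₜ[K] v) = 0 := by
    have h3 : ∀ x ∈ S.baseChange L, (S.mkQ.baseChange L) x = 0 := by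
      intro x hx
      have h4 : S.baseChange L ≤ LinearMap.ker (S.mkQ.baseChange L) := by
        rw [Submodule.baseChange_eq_span, Submodule.span_le]
        rintro _ ⟨y, hy, rfl⟩
        rw [SetLike.mem_coe, LinearMap.mem_ker]
        change (1 : L) ⊗ₜ[K] (S.mkQ y) = 0
        rw [Submodule.mkQ_apply, (Submodule.Quotient.mk_eq_zero S).2 hy, tmul_zero]
      exact h4 hx
    exact h3 _ h
  rw [LinearMap.baseChange_tmul] at h2
  have h5 : Function.Injective (fun v : V ⧸ S => (1 : L) ⊗ₜ[K] v) :=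
    Module.FaithfullyFlat.tensorProduct_mk_injective _
  exact h1 (h5 (h2.trans (TensorProduct.tmul_zero _ _).symm))

lemma opL_base (L : Type v) [Field L] [Algebra W.K L] (c : W.H (X.prod Y)) :
    opL (baseW W L) X Y ((1 : L) ⊗ₜ[W.K] c : (baseW W L).H (X.prod Y)) =
      (opL W X Y c).baseChange L := by
  rw [opL_apply, opL_apply, ← corr_base L]
  rfl

/-- Descent of the algebraicity of the parity operator. -/
lemma ParAlg.descend (L : Type v) [Field L] [Algebra W.K L] (h : ParAlg (baseW W L) X) :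
    ParAlg W X := by
  obtain ⟨σ, hσ⟩ := opL_bijective.2 (pa W X)
  have h1 : opL (baseW W L) X X ((1 : L) ⊗ₜ[W.K] σ : (baseW W L).H (X.prod X)) =
      pa (baseW W L) X := by
    rw [opL_base, hσ, pa_base]
  have h2 := h
  rw [ParAlg, ← map_opL] at h2
  obtain ⟨τ, hτ, hτ'⟩ := h2
  rw [← h1] at hτ'
  have h3 := opL_injective hτ'
  rw [h3] at hτ
  have h4 := algSpan_base_le (W := W) (Y := X.prod X) L (le_refl _) hτ
  have h5 := mem_of_one_tmul L h4
  rw [ParAlg, ← map_opL]
  exact ⟨σ, h5, hσ⟩

end Pool.Agent.W5h90.QL
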