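import Pool.Agent.W5h90.QL.A7
import Pool.Agent.Y133.Half.Index

/-!
# The quarter law
-/

open CategoryTheory AlgebraicGeometry Finset Filter Topology TensorProduct

open scoped ENNReal

universe u v

namespace Pool.Agent.W5h90.QL

open Pool.Agent.H914 Pool.Agent.H914.VarClass Pool.Agent.H914.VarClass.Obj
  Pool.Agent.H914.WeilCohomology Pool.Agent.H281R3.HT Pool.Agent.Y129

variable {k : Type u} [Field k] {𝒱 : VarClass k} {ops : CycleOps 𝒱}
  {W : WeilCohomology.{u, v} ops} {X Y Z : 𝒱.Obj}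

/-- A finite index implies that homological and numerical equivalence agree. -/
lemma homEqNum_of_index [Nontrivial (W.H X)] {G : ∀ n, Submodule W.K (W.H (pw X n))}
    (hG : StableSystem W X G) (hA : ∀ n, algSpan W (pw X n) ≤ G n) {N : ℕ∞}
    (hN : IsIndex W X G N) (hN' : N ≠ ⊤) (n : ℕ) : HomEqNum W (pw X n) := by
  obtain ⟨N₀, -, h2, -, -, h5⟩ := Pool.Agent.Y133.Half.stable_index hG hA
  have h3 : IsIndex W X G N₀ := by
    rw [IsIndex]
    simp only [numRank_eq_sum]
    exact h2
  have h4 : (N : ℝ≥0∞) = (N₀ : ℝ≥0∞) := tendsto_nhds_unique hN h3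
  have h6 : N = N₀ := ENat.toENNReal_inj.1 h4
  exact h5 (h6 ▸ hN') n

/-- **The quarter law.** -/
theorem quarter [Nontrivial (W.H X)] {G : ∀ n, Submodule W.K (W.H (pw X n))}
    (hG : StableSystem W X G) (hA : ∀ n, algSpan W (pw X n) ≤ G n)
    {σ : W.H (X.prod X)} (hσ : W.corr σ = pa W X) (hσG : σ ∈ G 1) {N : ℕ∞}
    (hN : IsIndex W X G N) : Pool.Agent.H447.SignStd W X ∨ 4 ≤ N := by
  by_cases h4 : 4 ≤ N
  · exact Or.inr h4
  left
  have hNt : N ≠ ⊤ := fun h => h4 (h ▸ le_top)
  have hnum := homEqNum_of_index hG hA hN hNt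
  obtain ⟨z, hz, hz1⟩ := exists_pt_of_finite hA hN hNt
  obtain ⟨n, rfl⟩ := ENat.ne_top_iff_exists.1 hNt
  have hn : n < 4 := by
    have : ((n : ℕ) : ℕ∞) < ((4 : ℕ) : ℕ∞) := not_le.1 h4
    exact_mod_cast this
  have hlim := hN.real hz hz1
  apply signStd_of_parAlg
  apply ParAlg.descend (AlgebraicClosure W.K)
  have hcl : IsAlgClosed (baseW W (AlgebraicClosure W.K)).K :=
    (inferInstance : IsAlgClosed (AlgebraicClosure W.K))
  have hnt : Nontrivial ((baseW W (AlgebraicClosure W.K)).H X) := nontrivial_base _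
  -- the sign class on the other side
  set τ : W.H (X.prod X) := W.map (swap X X) σ with hτ
  have hτG : τ ∈ G 1 := hG 1 1 _ (map_CC (swap X X)) σ hσG
  have hτ1 : opL W X X τ = pa W X := by
    rw [opL_apply, hτ, swap_swap, hσ]
  have hnum' : ∀ n, HomEqNum (baseW W (AlgebraicClosure W.K)) (pw X n) := fun n =>
    homEqNum_base' (L := AlgebraicClosure W.K) (hnum n)
  have hpos : ∀ n, 0 < numRank (baseW W (AlgebraicClosure W.K)) (pw X n) := by
    intro n
    rw [numRank_base]
    obtain ⟨w, hw, hw1⟩ := exists_pt_pw hz hz1 n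
    exact numRank_pos_of hw hw1
  refine parAlg_closed (W := baseW W (AlgebraicClosure W.K)) hnum'
    (G := baseSys (AlgebraicClosure W.K) G) (baseSys_stable (AlgebraicClosure W.K) hG)
    (algSpan_baseSys (AlgebraicClosure W.K) hA)
    (σ := ((1 : AlgebraicClosure W.K) ⊗ₜ[W.K] τ :
      (baseW W (AlgebraicClosure W.K)).H (X.prod X))) ?_ ?_ (N' := 1) (N := n) le_rfl ?_ ?_ ?_
  · rw [opL_base, hτ1, pa_base]
  · exact Submodule.tmul_mem_baseChange_of_mem (1 : AlgebraicClosure W.K) hτG
  · have h1 : ∀ n, (Module.finrank (baseW W (AlgebraicClosure W.K)).K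
        (algSpan (baseW W (AlgebraicClosure W.K)) (pw X n)) : ℝ) /
        numRank (baseW W (AlgebraicClosure W.K)) (pw X n) = 1 := by
      intro n
      rw [numRank_eq_of_disjoint (W := baseW W (AlgebraicClosure W.K)) (X := pw X n)
        (fun c hc hc' => homEqNum_algSpan (hnum' n) hc hc')]
      apply div_self
      have h2 := hpos n
      rw [numRank_eq_of_disjoint (W := baseW W (AlgebraicClosure W.K)) (X := pw X n)
        (fun c hc hc' => homEqNum_algSpan (hnum' n) hc hc')] at h2
      exact_mod_cast h2.ne'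
    simp only [h1]
    exact tendsto_const_nhds
  · simp only [finrank_baseSys, numRank_base]
    exact hlim
  · exact_mod_cast hn

end Pool.Agent.W5h90.QL
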