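import Pool.Agent.Y129.TDefs
import Pool.Agent.H447R3.SpDefs

/-!
# The sign class and the system of classes which it generates: definitions
-/

open CategoryTheory AlgebraicGeometry Filter Topology

open scoped ENNReal

universe u v w

namespace Pool.Agent.W5h90.QL

open Pool.Agent.H914 Pool.Agent.H914.VarClass Pool.Agent.H914.VarClass.Obj
  Pool.Agent.H914.WeilCohomology Pool.Agent.H281R3.HT Pool.Agent.Y129

variable {k : Type u} [Field k] {𝒱 : VarClass k} {ops : CycleOps 𝒱}

/-- The image of the class `a` on `Y` under the correspondence `c` from `Y` to `Z`. -/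
noncomputable def act (W : WeilCohomology.{u, v} ops) {Y Z : 𝒱.Obj} (c : W.H (Y.prod Z))
    (a : W.H Y) : W.H Z := W.corr c a

/-- `σ` is the sign class of `X`: the class on `X × X` which acts on the cohomology of degree `i`
as the multiplication by `(-1)^i`, i.e. the difference of the even and the odd Kunneth projector. -/
def IsSignClass (W : WeilCohomology.{u, v} ops) (X : 𝒱.Obj) (σ : W.H (X.prod X)) : Prop :=
  ∀ i, ∀ a ∈ W.gr X i, act W σ a = (-1 : W.K) ^ i • a

/-- Subspaces `G n` of the cohomology of the products `X ^ (n + 1)` of `n + 1` copies of `X`. -/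
abbrev Classes (W : WeilCohomology.{u, v} ops) (X : 𝒱.Obj) :=
  ∀ n, Submodule W.K (W.H (pw X n))

/-- The subspaces `G n` are stable under the correspondences given by algebraic cycles. -/
def Stable (W : WeilCohomology.{u, v} ops) (X : 𝒱.Obj) (G : Classes W X) : Prop :=
  ∀ m n p z, ((pw X m).prod (pw X n)).IsCyc p z →
    ∀ a ∈ G m, act W (W.cl _ z) a ∈ G n

/-- The classes of the algebraic cycles on `X ^ (n + 1)`. -/
def cycleClasses (W : WeilCohomology.{u, v} ops) (X : 𝒱.Obj) (n : ℕ) : Set (W.H (pw X n)) :=
  {c | ∃ j z, (pw X n).IsCyc j z ∧ W.cl (pw X n) z = c}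

/-- The subspaces `G n` of the cohomology of `X ^ (n + 1)` are stable under algebraic
correspondences and contain the classes of algebraic cycles. -/
def IsSystem (W : WeilCohomology.{u, v} ops) (X : 𝒱.Obj) (G : Classes W X) : Prop :=
  Stable W X G ∧ ∀ n, cycleClasses W X n ⊆ G n

/-- The class `σ` on `X × X` belongs to the system `G`. -/
def Contains (W : WeilCohomology.{u, v} ops) (X : 𝒱.Obj) (G : Classes W X)
    (σ : W.H (X.prod X)) : Prop := σ ∈ G 1

/-- The quotient of the dimension of `G n` and of the rank of the group of all cycles on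
`X ^ (n + 1)` modulo numerical equivalence. -/
noncomputable def ratio (W : WeilCohomology.{u, v} ops) (X : 𝒱.Obj) (G : Classes W X) (n : ℕ) :
    ℝ≥0∞ := (Module.finrank W.K (G n) : ℝ≥0∞) / cycRank ops (pw X n)

/-- The number `N`, an element of `{1, 2, ..., ∞}`, is the limit of the quotients, and bounds them
for the even powers of `X`. -/
def HasIndex (W : WeilCohomology.{u, v} ops) (X : 𝒱.Obj) (G : Classes W X) (N : ℕ∞) : Prop :=
  1 ≤ N ∧ Tendsto (ratio W X G) atTop (𝓝 (N : ℝ≥0∞)) ∧
    ∀ n, ratio W X G (2 * n + 1) ≤ (N : ℝ≥0∞)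

/-- The images of the class `σ` on `X × X` under the correspondences from `X × X` to `X ^ (n + 1)`
given by algebraic cycles. -/
def imagesOf (W : WeilCohomology.{u, v} ops) (X : 𝒱.Obj) (σ : W.H (X.prod X)) (n : ℕ) :
    Set (W.H (pw X n)) :=
  {c | ∃ p z, ((X.prod X).prod (pw X n)).IsCyc p z ∧ act W (W.cl _ z) σ = c}

/-- The system generated by the class `σ` on `X × X`: the space spanned by the classes of the
algebraic cycles on `X ^ (n + 1)` and by the images of `σ`. -/
noncomputable def signSystem (W : WeilCohomology.{u, v} ops) (X : 𝒱.Obj) (σ : W.H (X.prod X)) :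
    Classes W X := fun n => Submodule.span W.K (cycleClasses W X n ∪ imagesOf W X σ n)

/-- Homological and numerical equivalence agree on all powers of `X`. -/
def HomNum (W : WeilCohomology.{u, v} ops) (X : 𝒱.Obj) : Prop := ∀ n, HomEqNum W (pw X n)

/-- The system `G` has an index, which is at least four unless the sign conjecture holds for `X`. -/
def Quarter (W : WeilCohomology.{u, v} ops) (X : 𝒱.Obj) (G : Classes W X) : Prop :=
  ∃ N, HasIndex W X G N ∧ (¬ Pool.Agent.H447.SignStd W X → 4 ≤ N)

/-- The system generated by `σ` has an index `N` in `{1, 4, 5, ..., ∞}`, which is one if and only if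
the sign conjecture holds for `X` and homological and numerical equivalence agree on the powers of
`X`; if it is finite, homological and numerical equivalence agree on the powers of `X`. -/
def SignIndex (W : WeilCohomology.{u, v} ops) (X : 𝒱.Obj) (σ : W.H (X.prod X)) : Prop :=
  ∃ N, HasIndex W X (signSystem W X σ) N ∧ (N = 1 ∨ 4 ≤ N) ∧
    (N = 1 ↔ Pool.Agent.H447.SignStd W X ∧ HomNum W X) ∧ (N ≠ ⊤ → HomNum W X)

/-- Actions of a group on the cohomology of all powers of `X`. -/
abbrev Actions (W : WeilCohomology.{u, v} ops) (X : 𝒱.Obj) (Γ : Type w) [Group Γ] :=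
  ∀ n, Γ →* (W.H (pw X n) ≃ₐ[W.K] W.H (pw X n))

/-- The space of all Tate classes on `X ^ (n + 1)`. -/
noncomputable def tateSystem (W : WeilCohomology.{u, v} ops) (X : 𝒱.Obj) {Γ : Type w} [Group Γ]
    (χ : Γ →* W.Kˣ) (ρ : Actions W X Γ) : Classes W X := fun n =>
  ⨆ j, tateClasses χ (W.gr (pw X n)) (ρ n) j

end Pool.Agent.W5h90.QL
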