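import Pool.Agent.W5h90.QL.Defs
import Pool.Agent.W5h90.QL.A8
import Pool.Agent.Y129.Gal

/-!
# The quarter law: systems of classes, the sign class, Tate classes
-/

open CategoryTheory AlgebraicGeometry Finset Filter Topology TensorProduct

open scoped ENNReal

universe u v w

namespace Pool.Agent.W5h90.QL

open Pool.Agent.H914 Pool.Agent.H914.VarClass Pool.Agent.H914.VarClass.Obj
  Pool.Agent.H914.WeilCohomology Pool.Agent.H281R3.HT Pool.Agent.Y129 Pool.Agent.TH125.Gal

variable {k : Type u} [Field k] {𝒱 : VarClass k} {ops : CycleOps 𝒱}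
  {W : WeilCohomology.{u, v} ops} {X Y Z : 𝒱.Obj}

lemma corr_mem_CC {p : ℕ} {z : (Y.prod Z).Cycles} (hz : (Y.prod Z).IsCyc p z) :
    W.corr (W.cl _ z) ∈ CC W Y Z := KOp.le_CC ((p : ℤ) - Y.dim) (KOp.gen (by ring) hz)

/-- Properties of the algebraic correspondences. -/
lemma CC_le {S : Submodule W.K (W.H Y →ₗ[W.K] W.H Z)} (h : ∀ (p : ℕ) (z : (Y.prod Z).Cycles),
    (Y.prod Z).IsCyc p z → W.corr (W.cl _ z) ∈ S) : CC W Y Z ≤ S := by
  refine iSup_le fun d => ?_
  rw [KOp, Submodule.span_le]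
  rintro _ ⟨p, -, z, hz, rfl⟩
  exact h p z hz

lemma IsSystem.stableSystem {G : ∀ n, Submodule W.K (W.H (pw X n))} (h : IsSystem W X G) :
    StableSystem W X G := by
  intro m n f hf a ha
  have h1 : CC W (pw X m) (pw X n) ≤ (G n).comap (LinearMap.applyₗ a) :=
    CC_le fun p z hz => h.1 m n p z hz a ha
  exact h1 hf

lemma IsSystem.le {G : ∀ n, Submodule W.K (W.H (pw X n))} (h : IsSystem W X G) (n : ℕ) :
    algSpan W (pw X n) ≤ G n := by
  rw [algSpan, Submodule.span_le]
  intro c hc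
  obtain ⟨j, z, hz, rfl⟩ := Set.mem_iUnion.1 hc
  exact h.2 n ⟨j, z, hz, rfl⟩

lemma hasIndex_iff {G : ∀ n, Submodule W.K (W.H (pw X n))} {N : ℕ∞} :
    HasIndex W X G N ↔ 1 ≤ N ∧ IsIndex W X G N ∧
      ∀ n, (Module.finrank W.K (G (2 * n + 1)) : ℝ≥0∞) / numRank W (pw X (2 * n + 1)) ≤
        (N : ℝ≥0∞) := by
  have h1 : ratio W X G = fun n => (Module.finrank W.K (G n) : ℝ≥0∞) / numRank W (pw X n) := by
    funext n
    rw [ratio, numRank_eq_sum, cycRank]
  constructor
  · rintro ⟨h2, h3, h4⟩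
    rw [h1] at h3 h4
    exact ⟨h2, h3, h4⟩
  · rintro ⟨h2, h3, h4⟩
    refine ⟨h2, ?_, ?_⟩
    · rw [h1]; exact h3
    · rw [h1]; exact h4

lemma isSignClass_iff {σ : W.H (X.prod X)} : IsSignClass W X σ ↔ W.corr σ = pa W X := by
  constructor
  · intro h
    apply gr_ext (W.isInternal X)
    intro i a ha
    have h1 := h i a ha
    rw [act] at h1
    rw [h1, pa_apply ha]
  · intro h i a ha
    rw [act, h, pa_apply ha]

/-- There is exactly one sign class. -/
lemma existsUnique_sign (W : WeilCohomology.{u, v} ops) (X : 𝒱.Obj) :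
    ∃! σ : W.H (X.prod X), IsSignClass W X σ := by
  obtain ⟨σ, hσ⟩ := (corrEquiv W X).surjective (pa W X)
  refine ⟨σ, isSignClass_iff.2 hσ, ?_⟩
  intro τ hτ
  apply (corrEquiv W X).injective
  rw [hσ]
  exact isSignClass_iff.1 hτ

/-- The sign conjecture in terms of the sign class. -/
lemma signStd_iff_mem {σ : W.H (X.prod X)} (hσ : IsSignClass W X σ) :
    Pool.Agent.H447.SignStd W X ↔ σ ∈ algSpan W (X.prod X) := by
  rw [isSignClass_iff] at hσ
  constructor
  · rintro ⟨P, hP, hP'⟩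
    have h1 : W.corr ((2 : W.K) • W.cl _ P) = W.corr σ + LinearMap.id := by
      rw [hσ, corr_smul]
      apply gr_ext (W.isInternal X)
      intro i a ha
      rw [LinearMap.smul_apply, hP' i a ha, LinearMap.add_apply, pa_apply ha, LinearMap.id_apply]
      by_cases hi : Even i
      · rw [if_pos hi, hi.neg_one_pow, one_smul, two_smul]
      · rw [if_neg hi, (Nat.not_even_iff_odd.1 hi).neg_one_pow, smul_zero, neg_one_smul,
          neg_add_cancel]
    obtain ⟨δ, hδ, hδ'⟩ := exists_corr_eq (isCat_CC.id_mem X : LinearMap.id ∈ CC W X X)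
    have h2 : (2 : W.K) • W.cl _ P = σ + δ := by
      apply (corrEquiv W X).injective
      change W.corr ((2 : W.K) • W.cl _ P) = W.corr (σ + δ)
      rw [h1, corr_add, hδ']
    have h3 : σ = (2 : W.K) • W.cl _ P - δ := by rw [h2, add_sub_cancel_right]
    rw [h3]
    exact Submodule.sub_mem _ (Submodule.smul_mem _ _
      (Submodule.subset_span (Set.mem_iUnion.2 ⟨X.dim, P, hP, rfl⟩))) hδ
  · intro h
    apply signStd_of_parAlg
    rw [ParAlg, ← hσ]
    have h2 : W.map (swap X X) σ ∈ algSpan W (X.prod X) := map_algSpan _ h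
    have h3 := opL_mem (W := W) (X := X) (Y := X) h2
    rw [opL_apply, swap_swap] at h3
    exact h3

/-- **The quarter law for systems.** -/
theorem quarter_system [Nontrivial (W.H X)] {G : Classes W X}
    (hG : IsSystem W X G) {σ : W.H (X.prod X)} (hσ : IsSignClass W X σ) (hσG : σ ∈ G 1) :
    Quarter W X G := by
  obtain ⟨N, h1, h2, h3, -⟩ := exists_index hG.stableSystem hG.le
  refine ⟨N, hasIndex_iff.2 ⟨h1, h2, h3⟩, ?_⟩
  intro hC
  exact (quarter hG.stableSystem hG.le (isSignClass_iff.1 hσ) hσG h2).resolve_left hC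

/-! ### The system generated by the sign class -/

lemma signSystem_eq (σ : W.H (X.prod X)) (n : ℕ) : signSystem W X σ n =
    algSpan W (pw X n) ⊔ (CC W (X.prod X) (pw X n)).map (LinearMap.applyₗ σ) := by
  rw [signSystem, Submodule.span_union]
  congr 1
  · rw [algSpan]
    congr 1
    ext c
    rw [Set.mem_iUnion]
    rfl
  · apply le_antisymm
    · rw [Submodule.span_le]
      rintro _ ⟨p, z, hz, rfl⟩
      exact ⟨_, corr_mem_CC hz, rfl⟩
    · rintro _ ⟨f, hf, rfl⟩
      have h1 : CC W (X.prod X) (pw X n) ≤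
          (Submodule.span W.K (imagesOf W X σ n)).comap (LinearMap.applyₗ σ) :=
        CC_le fun p z hz => Submodule.subset_span ⟨p, z, hz, rfl⟩
      exact h1 hf

lemma signSystem_stable (σ : W.H (X.prod X)) : IsSystem W X (signSystem W X σ) := by
  constructor
  · intro m n p z hz a ha
    rw [signSystem_eq] at ha ⊢
    obtain ⟨b, hb, c, ⟨g, hg, rfl⟩, rfl⟩ := Submodule.mem_sup.1 ha
    rw [act, map_add]
    exact Submodule.add_mem _ (Submodule.mem_sup_left (CC.algSpan (corr_mem_CC hz) hb))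
      (Submodule.mem_sup_right ⟨_ ∘ₗ g, isCat_CC.comp_mem (corr_mem_CC hz) hg, rfl⟩)
  · intro n c hc
    exact Submodule.subset_span (Or.inl hc)

lemma apply_mem_signSystem (σ : W.H (X.prod X)) {n : ℕ}
    {f : W.H (X.prod X) →ₗ[W.K] W.H (pw X n)} (hf : f ∈ CC W (X.prod X) (pw X n)) :
    f σ ∈ signSystem W X σ n := by
  rw [signSystem_eq]
  exact Submodule.mem_sup_right ⟨f, hf, rfl⟩

lemma mem_signSystem (σ : W.H (X.prod X)) : σ ∈ signSystem W X σ 1 :=
  apply_mem_signSystem (n := 1) σ (f := (LinearMap.id : Module.End W.K (W.H (X.prod X))))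
    (isCat_CC.id_mem (X.prod X))

lemma signSystem_of_mem {σ : W.H (X.prod X)} (h : σ ∈ algSpan W (X.prod X)) (n : ℕ) :
    signSystem W X σ n = algSpan W (pw X n) := by
  rw [signSystem_eq, sup_eq_left]
  rintro _ ⟨f, hf, rfl⟩
  exact CC.algSpan hf h

/-- **The index of the sign class.** -/
theorem quarter_sign [Nontrivial (W.H X)] {σ : W.H (X.prod X)} (hσ : IsSignClass W X σ) :
    SignIndex W X σ := by
  have hS := signSystem_stable (W := W) (X := X) σ
  obtain ⟨N, h1, h2, h3, h4⟩ := exists_index hS.stableSystem hS.le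
  have h5 : N ≠ ⊤ → HomNum W X := fun hN n =>
    homEqNum_of_index hS.stableSystem hS.le h2 hN n
  have h6 : N = 1 ↔ Pool.Agent.H447.SignStd W X ∧ HomNum W X := by
    rw [h4]
    constructor
    · intro h
      refine ⟨?_, fun n => (h n).2⟩
      rw [signStd_iff_mem hσ]
      have h7 := (h 1).1
      have h8 := mem_signSystem (W := W) (X := X) σ
      rw [h7] at h8
      exact h8
    · rintro ⟨h, h'⟩ n
      exact ⟨signSystem_of_mem ((signStd_iff_mem hσ).1 h) n, h' n⟩
  refine ⟨N, hasIndex_iff.2 ⟨h1, h2, h3⟩, ?_, h6, h5⟩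
  by_cases hN : N = ⊤
  · right
    rw [hN]
    exact le_top
  rcases quarter hS.stableSystem hS.le (isSignClass_iff.1 hσ) (mem_signSystem σ) h2 with h | h
  · exact Or.inl (h6.2 ⟨h, h5 hN⟩)
  · exact Or.inr h

/-! ### Tate classes -/

variable {Γ : Type w} [Group Γ] {χ : Γ →* W.Kˣ}
  {ρ : ∀ n, Γ →* (W.H (pw X n) ≃ₐ[W.K] W.H (pw X n))}

lemma deg0_hom {f : Module.End W.K (W.H X)} (hf : IsHom (W.gr X) 0 f) : deg0 W X f = f := by
  apply gr_ext (W.isInternal X)
  intro j a ha
  by_cases hj : j ≤ 2 * X.dim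
  · rw [deg0_apply f hj ha]
    apply prj_same
    have h1 := hf j a (by rw [grZ_natCast]; exact ha)
    rwa [add_zero, grZ_natCast] at h1
  · rw [W.gr_eq_bot X j (by omega), Submodule.mem_bot] at ha
    rw [ha, map_zero, map_zero]

lemma deg0_hom_ne {d : ℤ} (hd : d ≠ 0) {f : Module.End W.K (W.H X)}
    (hf : IsHom (W.gr X) d f) : deg0 W X f = 0 := by
  apply gr_ext (W.isInternal X)
  intro j a ha
  rw [LinearMap.zero_apply]
  by_cases hj : j ≤ 2 * X.dim
  · rw [deg0_apply f hj ha]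
    have h1 := hf j a (by rw [grZ_natCast]; exact ha)
    by_cases hneg : 0 ≤ (j : ℤ) + d
    · obtain ⟨m, hm⟩ := Int.eq_ofNat_of_zero_le hneg
      rw [hm, grZ_natCast] at h1
      exact prj_ne (by omega) h1
    · rw [grZ_of_neg (by omega)] at h1
      rw [(Submodule.mem_bot _).1 h1, map_zero]
  · rw [W.gr_eq_bot X j (by omega), Submodule.mem_bot] at ha
    rw [ha, map_zero]

lemma deg0_corr {c : W.H (X.prod X)} (hc : pa W (X.prod X) c = c) :
    deg0 W X (W.corr c) =
      W.corr (Pool.Agent.H914.proj (W.isInternal (X.prod X)) (2 * X.dim) c) := by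
  refine even_induction (p := fun c => deg0 W X (W.corr c) =
      W.corr (Pool.Agent.H914.proj (W.isInternal (X.prod X)) (2 * X.dim) c)) ?_ ?_ ?_ hc
  · intro j x hx
    have h1 := W.corr_isHom hx
    by_cases hj : j = X.dim
    · subst hj
      rw [proj_same _ hx]
      rw [sub_self, mul_zero] at h1
      exact deg0_hom h1
    · rw [proj_ne _ hx (by omega), corr_zero]
      exact deg0_hom_ne (by omega) h1
  · rw [map_zero, corr_zero, map_zero]
  · intro a b ha hb
    rw [map_add, corr_add, corr_add, map_add, ha, hb]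

lemma pa_of_corr {σ : W.H (X.prod X)} (hσ : W.corr σ = pa W X) : pa W (X.prod X) σ = σ := by
  have h1 : opL W X X (W.map (swap X X) σ) = pa W X := by rw [opL_apply, swap_swap, hσ]
  have h2 := pa_of_opL h1
  rw [← pa_map] at h2
  have h3 := congrArg (W.map (swap X X)) h2
  rwa [swap_swap, swap_swap] at h3

/-- The degree of the sign class. -/
lemma sign_gr {σ : W.H (X.prod X)} (hσ : IsSignClass W X σ) :
    σ ∈ W.gr (X.prod X) (2 * X.dim) := by
  have hσ' := isSignClass_iff.1 hσ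
  have h1 := deg0_corr (pa_of_corr hσ')
  have h2 : deg0 W X (W.corr σ) = W.corr σ := by
    rw [hσ']
    apply deg0_hom
    intro i a ha
    rw [add_zero]
    by_cases hi : 0 ≤ i
    · obtain ⟨m, rfl⟩ := Int.eq_ofNat_of_zero_le hi
      rw [grZ_natCast] at ha ⊢
      rw [pa_apply ha]
      exact Submodule.smul_mem _ _ ha
    · rw [grZ_of_neg (by omega), Submodule.mem_bot] at ha
      rw [ha, map_zero]
      exact Submodule.zero_mem _
  rw [h2] at h1
  have h3 : σ = Pool.Agent.H914.proj (W.isInternal (X.prod X)) (2 * X.dim) σ :=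
    (corrEquiv W X).injective h1
  rw [h3]
  exact proj_mem _ _ _

/-- The sign class is a Tate class. -/
lemma sign_tate (h : PowerAction W X χ ρ) {σ : W.H (X.prod X)} (hσ : IsSignClass W X σ) :
    σ ∈ TG W X χ ρ 1 := by
  have hσ' := isSignClass_iff.1 hσ
  have hf : Intertwines (W.map (fst X X)) (ρ 0) (ρ 1) := h.equiv (m := 0) (n := 1) (fst X X)
    (fun _ => 0) (fun i => by fin_cases i; rfl)
  have hs : Intertwines (W.map (snd X X)) (ρ 0) (ρ 1) := h.equiv (m := 0) (n := 1) (snd X X)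
    (fun _ => 1) (fun i => by fin_cases i; rfl)
  refine le_iSup (fun j => tateClasses χ (W.gr (pw X 1)) (ρ 1) j) X.dim
    ⟨sign_gr hσ, ⊤, inferInstance, fun g _ => ?_⟩
  obtain ⟨r1, hr1⟩ : ∃ r1 : W.H (X.prod X) ≃ₐ[W.K] W.H (X.prod X), r1 = ρ 1 g := ⟨_, rfl⟩
  obtain ⟨r0, hr0⟩ : ∃ r0 : W.H X ≃ₐ[W.K] W.H X, r0 = ρ 0 g := ⟨_, rfl⟩
  have e2 : ∀ a, r1 (W.map (fst X X) a) = W.map (fst X X) (r0 a) := fun a => by
    rw [hr1, hr0]; exact hf g a
  have e3 : ∀ c, ((χ g : W.K) ^ (X.dim + X.dim)) • r0 (W.push (snd X X) c) =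
      ((χ g : W.K) ^ X.dim) • W.push (snd X X) (r1 c) := fun c => by
    rw [hr1, hr0]
    have h2 := push_act (h.galois 1) (h.galois 0) hs g c
    have h4 : (pw X 1).dim = X.dim + X.dim := dim_prod X X
    rw [h4] at h2
    exact h2
  have e5 : ∀ a, pa W X (r0 a) = r0 (pa W X a) := by
    intro a
    refine gr_induction (W.isInternal X) (p := fun a => pa W X (r0 a) = r0 (pa W X a)) ?_ ?_ a
    · intro i a ha
      have h4 : r0 a ∈ W.gr X i := by rw [hr0]; exact (h.galois 0).gr_mem g i a ha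
      rw [pa_apply h4, pa_apply ha, map_smul]
    · intro a b ha hb
      rw [map_add, map_add, ha, hb, map_add, map_add]
  change ρ 1 g σ = (χ g : W.K) ^ X.dim • σ
  rw [← hr1]
  apply (corrEquiv W X).injective
  change W.corr (r1 σ) = W.corr ((χ g : W.K) ^ X.dim • σ)
  rw [corr_smul, hσ']
  apply LinearMap.ext
  intro b
  obtain ⟨a, rfl⟩ := r0.surjective b
  have h1 : W.corr (r1 σ) (r0 a) = W.push (snd X X) (r1 (σ * W.map (fst X X) a)) := by
    rw [corr_apply, ← e2, ← map_mul r1]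
  have h3 : W.push (snd X X) (σ * W.map (fst X X) a) = pa W X a := by
    rw [← corr_apply, hσ']
  have h5 := e3 (σ * W.map (fst X X) a)
  rw [h3, ← h1, pow_add, mul_smul] at h5
  have h6 : (χ g : W.K) ^ X.dim ≠ 0 := pow_ne_zero _ (Units.ne_zero _)
  have h7 := smul_right_injective (W.H X) h6 h5
  rw [← h7, LinearMap.smul_apply, e5]

/-- **The quarter law for Tate classes.** -/
theorem quarter_tate [Nontrivial (W.H X)] (h : PowerAction W X χ ρ) :
    Quarter W X (tateSystem W X χ ρ) := by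
  obtain ⟨σ, hσ, -⟩ := existsUnique_sign W X
  obtain ⟨N, h1, h2, h3, -⟩ := exists_index (W := W) (X := X) h.stable h.algSpan_le
  exact ⟨N, hasIndex_iff.2 ⟨h1, h2, h3⟩, fun hC => (quarter h.stable h.algSpan_le
    (isSignClass_iff.1 hσ) (sign_tate h hσ) h2).resolve_left hC⟩

end Pool.Agent.W5h90.QL
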